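import Pool.Agent.V5helper51.CR6.Stm
import Pool.Agent.V5helper35.CR6.SMB
import Pool.Agent.H370R2.MV
import Pool.Agent.H398R2.BA1

/-!
# Project CR6, job FMC, part 1: fourth moments of Dirichlet polynomials
-/

set_option autoImplicit false

namespace Pool.Agent.V5helper35.CR6.FM

open Finset Pool.Agent.Q236.CR MeasureTheory

/-- a Dirichlet polynomial -/
noncomputable def DP (a : ℕ → ℂ) (u v : ℕ) (t : ℝ) : ℂ := ∑ n ∈ Finset.Ioc u v, a n * nt t n

/-- the coefficients of the square -/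
noncomputable def cf (a : ℕ → ℂ) (u v m : ℕ) : ℂ :=
  ∑ p ∈ (Finset.Ioc u v ×ˢ Finset.Ioc u v).filter (fun p => p.1 * p.2 = m), a p.1 * a p.2

theorem nt_mul (t : ℝ) (m n : ℕ) : nt t (m * n) = nt t m * nt t n := by
  unfold nt
  push_cast
  rw [Complex.natCast_mul_natCast_cpow]

theorem dp_sq (a : ℕ → ℂ) (u v : ℕ) (t : ℝ) :
    DP a u v t ^ 2 = ∑ m ∈ Finset.Icc 1 (v ^ 2), cf a u v m * nt t m := by
  unfold DP cf
  rw [sq, Finset.sum_mul_sum, ← Finset.sum_product']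
  rw [← Finset.sum_fiberwise_of_maps_to (s := Finset.Ioc u v ×ˢ Finset.Ioc u v) (t := Finset.Icc 1 (v ^ 2))
    (g := fun p => p.1 * p.2)]
  · refine Finset.sum_congr rfl (fun m _ => ?_)
    rw [Finset.sum_mul]
    refine Finset.sum_congr rfl (fun p hp => ?_)
    rw [Finset.mem_filter] at hp
    rw [← hp.2, nt_mul]
    ring
  · intro p hp
    rw [Finset.mem_product, Finset.mem_Ioc, Finset.mem_Ioc] at hp
    rw [Finset.mem_Icc]
    refine ⟨Nat.mul_pos (by omega) (by omega), ?_⟩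
    rw [sq]
    exact Nat.mul_le_mul hp.1.2 hp.2.2

theorem cf_bound {a : ℕ → ℂ} {u v : ℕ} {B : ℝ} (ha : ∀ n ∈ Finset.Ioc u v, ‖a n‖ ≤ B / √n) (m : ℕ)
    (hm : 1 ≤ m) : ‖cf a u v m‖ ≤ B ^ 2 / √m * m.divisors.card := by
  have hm0 : (0 : ℝ) < m := by exact_mod_cast hm
  unfold cf
  refine (norm_sum_le _ _).trans ?_
  have h1 : ∀ p ∈ (Finset.Ioc u v ×ˢ Finset.Ioc u v).filter (fun p => p.1 * p.2 = m),
      ‖a p.1 * a p.2‖ ≤ B ^ 2 / √m := by
    intro p hp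
    rw [Finset.mem_filter, Finset.mem_product] at hp
    rw [norm_mul]
    have h2 := ha _ hp.1.1
    have h3 := ha _ hp.1.2
    have h4 : B ^ 2 / √m = (B / √(p.1 : ℝ)) * (B / √(p.2 : ℝ)) := by
      rw [← hp.2]
      push_cast
      rw [Real.sqrt_mul (Nat.cast_nonneg _)]
      ring
    rw [h4]
    exact mul_le_mul h2 h3 (norm_nonneg _) ((norm_nonneg _).trans h2)
  refine (Finset.sum_le_sum h1).trans ?_
  rw [Finset.sum_const, nsmul_eq_mul, mul_comm]
  refine mul_le_mul_of_nonneg_left ?_ (by positivity)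
  have h5 : ((Finset.Ioc u v ×ˢ Finset.Ioc u v).filter (fun p => p.1 * p.2 = m)).card ≤ m.divisors.card := by
    rw [← Finset.card_image_of_injOn (s := (Finset.Ioc u v ×ˢ Finset.Ioc u v).filter (fun p => p.1 * p.2 = m))
      (f := fun p => p.1)]
    · refine Finset.card_le_card ?_
      intro x hx
      rw [Finset.mem_image] at hx
      obtain ⟨p, hp, rfl⟩ := hx
      rw [Finset.mem_filter] at hp
      rw [Nat.mem_divisors]
      exact ⟨⟨p.2, hp.2.symm⟩, by omega⟩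
    · intro p hp r hr h
      simp only [Finset.coe_filter, Finset.mem_product, Finset.mem_Ioc, Set.mem_ofPred_eq] at hp hr
      simp only at h
      have h6 : p.1 * p.2 = p.1 * r.2 := by rw [hp.2, h, hr.2]
      have h7 : p.2 = r.2 := Nat.eq_of_mul_eq_mul_left (by omega) h6
      exact Prod.ext h h7
  exact_mod_cast h5

/-- the fourth moment -/
theorem dp_four {a : ℕ → ℂ} {u v : ℕ} {B : ℝ} (ha : ∀ n ∈ Finset.Ioc u v, ‖a n‖ ≤ B / √n) (T1 T2 : ℝ) (h : T1 ≤ T2) :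
    ∫ t in T1..T2, ‖DP a u v t‖ ^ 4 ≤
      B ^ 4 * (T2 - T1 + 8 * v ^ 2 * (1 + Real.log (v ^ 2))) * (1 + Real.log (v ^ 2)) ^ 4 := by
  have h1 : ∀ t : ℝ, ‖DP a u v t‖ ^ 4 = ‖∑ m ∈ Finset.Icc 1 (v ^ 2), cf a u v m * (m : ℂ) ^ (-(t : ℂ) * Complex.I)‖ ^ 2 := by
    intro t
    have := dp_sq a u v t
    unfold nt at this
    rw [← this, norm_pow]
    ring
  simp_rw [h1]
  have h2 := H370.mean_value (cf a u v) (v ^ 2) T1 T2 h
  refine h2.trans ?_
  push_cast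
  have hlog : 0 ≤ Real.log ((v : ℝ) ^ 2) := by
    have := Real.log_natCast_nonneg (v ^ 2)
    push_cast at this
    exact this
  have h3 : ∑ n ∈ Finset.Icc 1 (v ^ 2), ‖cf a u v n‖ ^ 2 ≤ B ^ 4 * (1 + Real.log (v ^ 2)) ^ 4 := by
    have h4 : ∀ n ∈ Finset.Icc 1 (v ^ 2), ‖cf a u v n‖ ^ 2 ≤ B ^ 4 * ((n.divisors.card : ℝ) ^ 2 / n) := by
      intro n hn
      rw [Finset.mem_Icc] at hn
      have h5 := cf_bound ha n hn.1
      have hn0 : (0 : ℝ) < n := by exact_mod_cast hn.1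
      have h6 := pow_le_pow_left₀ (norm_nonneg _) h5 2
      refine h6.trans (le_of_eq ?_)
      rw [mul_pow, div_pow, Real.sq_sqrt hn0.le]
      ring
    refine (Finset.sum_le_sum h4).trans ?_
    rw [← Finset.mul_sum]
    refine mul_le_mul_of_nonneg_left ?_ (by positivity)
    have h7 := Pool.Agent.H398R2.BV.sum_card_pow_div 2 (v ^ 2)
    push_cast at h7
    norm_num at h7 ⊢
    exact h7
  calc (T2 - T1 + 8 * (v : ℝ) ^ 2 * (1 + Real.log ((v : ℝ) ^ 2))) * ∑ n ∈ Finset.Icc 1 (v ^ 2), ‖cf a u v n‖ ^ 2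
      ≤ (T2 - T1 + 8 * (v : ℝ) ^ 2 * (1 + Real.log ((v : ℝ) ^ 2))) * (B ^ 4 * (1 + Real.log (v ^ 2)) ^ 4) := by
        refine mul_le_mul_of_nonneg_left h3 ?_
        have : 0 ≤ 8 * (v : ℝ) ^ 2 * (1 + Real.log ((v : ℝ) ^ 2)) := by positivity
        linarith
    _ = _ := by ring

theorem dp_cont (a : ℕ → ℂ) (u v : ℕ) : Continuous (DP a u v) := by
  unfold DP
  refine continuous_finsetSum _ (fun n hn => ?_)
  rw [Finset.mem_Ioc] at hn
  refine continuous_const.mul ?_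
  have h1 : (fun t : ℝ => nt t n) = fun t : ℝ => Pool.Agent.H469R2.NK.e (-(t / (2 * Real.pi) * Real.log n)) := by
    ext t
    exact nt_eq_e t n (by omega)
  rw [h1]
  unfold Pool.Agent.H469R2.NK.e
  fun_prop

theorem dp_bound {a : ℕ → ℂ} {u v : ℕ} (t : ℝ) : ‖DP a u v t‖ ≤ ∑ n ∈ Finset.Ioc u v, ‖a n‖ := by
  unfold DP
  refine (norm_sum_le _ _).trans (Finset.sum_le_sum fun n hn => ?_)
  rw [Finset.mem_Ioc] at hn
  rw [norm_mul, norm_nt t n (by omega), mul_one]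

/-- nonnegative bounded continuous functions with a bound for the fourth moments over all windows of length `2T` -/
structure M4 (T S : ℝ) (f : ℝ → ℝ) : Prop where
  cont : Continuous f
  nonneg : ∀ u, 0 ≤ f u
  bdd : ∃ M, ∀ u, f u ≤ M
  mom : ∀ v, ∫ t in (-T)..T, f (t + v) ^ 4 ≤ S

theorem M4.mono {T S S' : ℝ} {f : ℝ → ℝ} (h : M4 T S f) (hS : S ≤ S') : M4 T S' f :=
  ⟨h.cont, h.nonneg, h.bdd, fun v => (h.mom v).trans hS⟩

theorem M4.neg {T S : ℝ} {f : ℝ → ℝ} (h : M4 T S f) : M4 T S (fun u => f (-u)) := by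
  refine ⟨h.cont.comp continuous_neg, fun u => h.nonneg _, ?_, fun v => ?_⟩
  · obtain ⟨M, hM⟩ := h.bdd
    exact ⟨M, fun u => hM _⟩
  · have h1 := h.mom (-v)
    have h2 := intervalIntegral.integral_comp_neg (a := -T) (b := T) (fun t => f (t + -v) ^ 4)
    rw [neg_neg] at h2
    rw [← h2] at h1
    refine le_trans (le_of_eq ?_) h1
    refine intervalIntegral.integral_congr (fun t _ => ?_)
    show f (-(t + v)) ^ 4 = f (-t + -v) ^ 4
    rw [neg_add]

theorem M4.of_le {T S : ℝ} {f g : ℝ → ℝ} (hT : 0 ≤ T) (h : M4 T S g) (hc : Continuous f) (h0 : ∀ u, 0 ≤ f u)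
    (hle : ∀ u, f u ≤ g u) : M4 T S f := by
  refine ⟨hc, h0, ?_, fun v => ?_⟩
  · obtain ⟨M, hM⟩ := h.bdd
    exact ⟨M, fun u => (hle u).trans (hM u)⟩
  · refine le_trans ?_ (h.mom v)
    refine intervalIntegral.integral_mono_on (by linarith) ?_ ?_ (fun t _ => pow_le_pow_left₀ (h0 _) (hle _) 4)
    · exact ((hc.comp (continuous_id.add continuous_const)).pow 4).intervalIntegrable _ _
    · exact ((h.cont.comp (continuous_id.add continuous_const)).pow 4).intervalIntegrable _ _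

theorem M4.const {T B : ℝ} (hB : 0 ≤ B) : M4 T (2 * T * B ^ 4) (fun _ => B) := by
  refine ⟨continuous_const, fun _ => hB, ⟨B, fun _ => le_rfl⟩, fun v => ?_⟩
  simp only [intervalIntegral.integral_const, smul_eq_mul]
  apply le_of_eq
  ring

theorem M4.dp {a : ℕ → ℂ} {u v : ℕ} {B T : ℝ} (hT : 0 ≤ T) (ha : ∀ n ∈ Finset.Ioc u v, ‖a n‖ ≤ B / √n) :
    M4 T (B ^ 4 * (2 * T + 8 * v ^ 2 * (1 + Real.log (v ^ 2))) * (1 + Real.log (v ^ 2)) ^ 4)
      (fun t => ‖DP a u v t‖) := by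
  refine ⟨(dp_cont a u v).norm, fun _ => norm_nonneg _, ⟨_, fun t => dp_bound t⟩, fun w => ?_⟩
  have h1 : ∫ t in (-T)..T, ‖DP a u v (t + w)‖ ^ 4 = ∫ t in (-T + w)..(T + w), ‖DP a u v t‖ ^ 4 :=
    intervalIntegral.integral_comp_add_right (fun t => ‖DP a u v t‖ ^ 4) w
  rw [h1]
  have h2 := dp_four ha (-T + w) (T + w) (by linarith)
  refine h2.trans (le_of_eq ?_)
  ring

theorem pow4_sum_le {ι : Type} (s : Finset ι) (f : ι → ℝ) :
    (∑ i ∈ s, f i) ^ 4 ≤ (s.card : ℝ) ^ 3 * ∑ i ∈ s, f i ^ 4 := by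
  have h1 : (∑ i ∈ s, f i) ^ 2 ≤ s.card * ∑ i ∈ s, f i ^ 2 := sq_sum_le_card_mul_sum_sq
  have h2 : (∑ i ∈ s, f i ^ 2) ^ 2 ≤ s.card * ∑ i ∈ s, (f i ^ 2) ^ 2 := sq_sum_le_card_mul_sum_sq
  have h3 : 0 ≤ (s.card : ℝ) := Nat.cast_nonneg _
  calc (∑ i ∈ s, f i) ^ 4 = ((∑ i ∈ s, f i) ^ 2) ^ 2 := by ring
    _ ≤ (s.card * ∑ i ∈ s, f i ^ 2) ^ 2 := pow_le_pow_left₀ (sq_nonneg _) h1 2
    _ = (s.card : ℝ) ^ 2 * (∑ i ∈ s, f i ^ 2) ^ 2 := by ring
    _ ≤ (s.card : ℝ) ^ 2 * (s.card * ∑ i ∈ s, (f i ^ 2) ^ 2) := mul_le_mul_of_nonneg_left h2 (by positivity)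
    _ = _ := by
        have : ∀ i ∈ s, (f i ^ 2) ^ 2 = f i ^ 4 := fun i _ => by ring
        rw [Finset.sum_congr rfl this]
        ring

theorem M4.sum {ι : Type} {T : ℝ} (hT : 0 ≤ T) (s : Finset ι) (S : ι → ℝ) (f : ι → ℝ → ℝ) (h : ∀ i ∈ s, M4 T (S i) (f i)) :
    M4 T ((s.card : ℝ) ^ 3 * ∑ i ∈ s, S i) (fun u => ∑ i ∈ s, f i u) := by
  refine ⟨continuous_finsetSum _ fun i hi => (h i hi).cont, fun u => Finset.sum_nonneg fun i hi => (h i hi).nonneg u,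
    ?_, fun v => ?_⟩
  · have : ∀ i, ∃ M, i ∈ s → ∀ u, f i u ≤ M := by
      intro i
      by_cases hi : i ∈ s
      · obtain ⟨M, hM⟩ := (h i hi).bdd
        exact ⟨M, fun _ => hM⟩
      · exact ⟨0, fun h => absurd h hi⟩
    choose M hM using this
    exact ⟨∑ i ∈ s, M i, fun u => Finset.sum_le_sum fun i hi => hM i hi u⟩
  · have hci : ∀ i ∈ s, Continuous fun t => f i (t + v) ^ 4 := fun i hi =>
      (((h i hi).cont.comp (continuous_id.add continuous_const)).pow 4)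
    have h1 : ∫ t in (-T)..T, (∑ i ∈ s, f i (t + v)) ^ 4 ≤
        ∫ t in (-T)..T, (s.card : ℝ) ^ 3 * ∑ i ∈ s, f i (t + v) ^ 4 := by
      refine intervalIntegral.integral_mono_on (by linarith) ?_ ?_ (fun t _ => pow4_sum_le s _)
      · exact ((continuous_finsetSum _ fun i hi =>
          (h i hi).cont.comp (continuous_id.add continuous_const)).pow 4).intervalIntegrable _ _
      · exact (continuous_const.mul (continuous_finsetSum _ hci)).intervalIntegrable _ _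
    refine h1.trans ?_
    rw [intervalIntegral.integral_const_mul, intervalIntegral.integral_finsetSum]
    · exact mul_le_mul_of_nonneg_left (Finset.sum_le_sum fun i hi => (h i hi).mom v) (by positivity)
    · exact fun i hi => (hci i hi).intervalIntegrable _ _

theorem M4.smul {T S c : ℝ} {f : ℝ → ℝ} (hc : 0 ≤ c) (h : M4 T S f) : M4 T (c ^ 4 * S) (fun u => c * f u) := by
  refine ⟨continuous_const.mul h.cont, fun u => mul_nonneg hc (h.nonneg u), ?_, fun v => ?_⟩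
  · obtain ⟨M, hM⟩ := h.bdd
    exact ⟨c * M, fun u => mul_le_mul_of_nonneg_left (hM u) hc⟩
  · have : ∀ t, (c * f (t + v)) ^ 4 = c ^ 4 * f (t + v) ^ 4 := fun t => by ring
    simp_rw [this]
    rw [intervalIntegral.integral_const_mul]
    exact mul_le_mul_of_nonneg_left (h.mom v) (by positivity)

end Pool.Agent.V5helper35.CR6.FM
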