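import Pool.Agent.V5helper35.CR6.FM.Base

/-!
# Project CR6, job FMC, part 2: convolutions with a Gaussian
-/

set_option autoImplicit false

namespace Pool.Agent.V5helper35.CR6.FM

open MeasureTheory Filter Topology

/-- the weight -/
noncomputable def gw (v : ℝ) : ℝ := Real.exp (-(1 / 2) * v ^ 2)

theorem gw_pos (v : ℝ) : 0 < gw v := Real.exp_pos _

theorem gw_cont : Continuous gw := by unfold gw; fun_prop

theorem gw_int : Integrable gw := integrable_exp_neg_mul_sq (by norm_num)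

theorem gw_integral : ∫ v, gw v = √(2 * Real.pi) := by
  unfold gw
  rw [integral_gaussian]
  congr 1
  ring

/-- the convolution -/
noncomputable def cv (f : ℝ → ℝ) (t : ℝ) : ℝ := ∫ v, gw v * f (t + v)

theorem cv_integrable {f : ℝ → ℝ} {M : ℝ} (hf : Continuous f) (h0 : ∀ u, 0 ≤ f u) (hM : ∀ u, f u ≤ M) (k : ℕ) (t : ℝ) :
    Integrable (fun v => gw v * f (t + v) ^ k) := by
  refine (gw_int.mul_const (M ^ k)).mono' ?_ (Eventually.of_forall fun v => ?_)
  · exact (gw_cont.mul ((hf.comp (continuous_const.add continuous_id)).pow k)).aestronglyMeasurable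
  · rw [Real.norm_of_nonneg (mul_nonneg (gw_pos v).le (pow_nonneg (h0 _) _))]
    exact mul_le_mul_of_nonneg_left (pow_le_pow_left₀ (h0 _) (hM _) k) (gw_pos v).le

theorem cs {f g : ℝ → ℝ} (hf : ∀ v, 0 ≤ f v) (h0 : Integrable f) (h1 : Integrable fun v => f v * g v)
    (h2 : Integrable fun v => f v * g v ^ 2) :
    (∫ v, f v * g v) ^ 2 ≤ (∫ v, f v) * ∫ v, f v * g v ^ 2 := by
  have key : ∀ x : ℝ, 0 ≤ (∫ v, f v) * (x * x) + (-(2 * ∫ v, f v * g v)) * x + ∫ v, f v * g v ^ 2 := by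
    intro x
    have h3 : 0 ≤ ∫ v, f v * (x - g v) ^ 2 := integral_nonneg fun v => mul_nonneg (hf v) (sq_nonneg _)
    have h4 : ∀ v, f v * (x - g v) ^ 2 = f v * (x * x) + (-(2 * x)) * (f v * g v) + f v * g v ^ 2 :=
      fun v => by ring
    simp_rw [h4] at h3
    have e1 : ∫ v, (f v * (x * x) + (-(2 * x)) * (f v * g v) + f v * g v ^ 2) =
        (∫ v, (f v * (x * x) + (-(2 * x)) * (f v * g v))) + ∫ v, f v * g v ^ 2 :=
      integral_add ((h0.mul_const _).add (h1.const_mul _)) h2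
    have e2 : ∫ v, (f v * (x * x) + (-(2 * x)) * (f v * g v)) =
        (∫ v, f v * (x * x)) + ∫ v, (-(2 * x)) * (f v * g v) :=
      integral_add (h0.mul_const _) (h1.const_mul _)
    rw [e1, e2, integral_mul_const, integral_const_mul] at h3
    linarith
  have h5 := discrim_le_zero key
  unfold discrim at h5
  nlinarith

theorem cv_four {f : ℝ → ℝ} {M : ℝ} (hf : Continuous f) (h0 : ∀ u, 0 ≤ f u) (hM : ∀ u, f u ≤ M) (t : ℝ) :
    cv f t ^ 4 ≤ √(2 * Real.pi) ^ 3 * ∫ v, gw v * f (t + v) ^ 4 := by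
  have i1 := cv_integrable hf h0 hM 1 t
  have i2 := cv_integrable hf h0 hM 2 t
  have i4 := cv_integrable hf h0 hM 4 t
  simp only [pow_one] at i1
  have h1 := cs (f := gw) (g := fun v => f (t + v)) (fun v => (gw_pos v).le) gw_int i1 i2
  have h2 := cs (f := gw) (g := fun v => f (t + v) ^ 2) (fun v => (gw_pos v).le) gw_int i2 (by
    have : ∀ v, gw v * (f (t + v) ^ 2) ^ 2 = gw v * f (t + v) ^ 4 := fun v => by ring
    simp_rw [this]
    exact i4)
  have h3 : ∀ v, gw v * (f (t + v) ^ 2) ^ 2 = gw v * f (t + v) ^ 4 := fun v => by ring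
  simp_rw [h3] at h2
  rw [gw_integral] at h1 h2
  have hs : 0 ≤ √(2 * Real.pi) := Real.sqrt_nonneg _
  have h4 : 0 ≤ ∫ v, gw v * f (t + v) ^ 2 := integral_nonneg fun v => mul_nonneg (gw_pos v).le (sq_nonneg _)
  unfold cv
  calc (∫ v, gw v * f (t + v)) ^ 4 = ((∫ v, gw v * f (t + v)) ^ 2) ^ 2 := by ring
    _ ≤ (√(2 * Real.pi) * ∫ v, gw v * f (t + v) ^ 2) ^ 2 := pow_le_pow_left₀ (sq_nonneg _) h1 2
    _ = √(2 * Real.pi) ^ 2 * (∫ v, gw v * f (t + v) ^ 2) ^ 2 := by ring
    _ ≤ √(2 * Real.pi) ^ 2 * (√(2 * Real.pi) * ∫ v, gw v * f (t + v) ^ 4) :=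
        mul_le_mul_of_nonneg_left h2 (by positivity)
    _ = _ := by ring

theorem cv_nonneg {f : ℝ → ℝ} (h0 : ∀ u, 0 ≤ f u) (t : ℝ) : 0 ≤ cv f t :=
  integral_nonneg fun v => mul_nonneg (gw_pos v).le (h0 _)

theorem cv_cont {f : ℝ → ℝ} {M : ℝ} (hf : Continuous f) (h0 : ∀ u, 0 ≤ f u) (hM : ∀ u, f u ≤ M) (k : ℕ) :
    Continuous (fun t => ∫ v, gw v * f (t + v) ^ k) := by
  refine continuous_of_dominated (bound := fun v => gw v * M ^ k) ?_ ?_ (gw_int.mul_const _) ?_
  · intro t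
    exact (gw_cont.mul ((hf.comp (continuous_const.add continuous_id)).pow k)).aestronglyMeasurable
  · intro t
    refine Eventually.of_forall fun v => ?_
    rw [Real.norm_of_nonneg (mul_nonneg (gw_pos v).le (pow_nonneg (h0 _) _))]
    exact mul_le_mul_of_nonneg_left (pow_le_pow_left₀ (h0 _) (hM _) k) (gw_pos v).le
  · refine Eventually.of_forall fun v => ?_
    exact continuous_const.mul ((hf.comp (continuous_id.add continuous_const)).pow k)

/-- the fourth moment of the convolution -/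
theorem M4.conv {T S : ℝ} {f : ℝ → ℝ} (hT : 0 ≤ T) (h : M4 T S f) :
    Continuous (cv f) ∧ ∫ t in (-T)..T, cv f t ^ 4 ≤ 40 * S := by
  obtain ⟨M, hM⟩ := h.bdd
  have hc1 : Continuous (cv f) := by
    have h1 := cv_cont h.cont h.nonneg hM 1
    have e : cv f = fun t => ∫ v, gw v * f (t + v) ^ 1 := by
      ext t
      simp [cv]
    rw [e]
    exact h1
  refine ⟨hc1, ?_⟩
  have hc4 := cv_cont h.cont h.nonneg hM 4
  have h1 : ∫ t in (-T)..T, cv f t ^ 4 ≤ ∫ t in (-T)..T, √(2 * Real.pi) ^ 3 * ∫ v, gw v * f (t + v) ^ 4 := by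
    refine intervalIntegral.integral_mono_on (by linarith) ?_ ?_ (fun t _ => cv_four h.cont h.nonneg hM t)
    · exact (hc1.pow 4).intervalIntegrable _ _
    · exact (continuous_const.mul hc4).intervalIntegrable _ _
  refine h1.trans ?_
  rw [intervalIntegral.integral_const_mul]
  have h2 : ∫ t in (-T)..T, ∫ v, gw v * f (t + v) ^ 4 = ∫ v, ∫ t in (-T)..T, gw v * f (t + v) ^ 4 := by
    rw [intervalIntegral.integral_of_le (by linarith)]
    rw [MeasureTheory.integral_integral_swap]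
    · refine integral_congr_ae (Eventually.of_forall fun v => ?_)
      simp only
      rw [intervalIntegral.integral_of_le (by linarith)]
    · have hb : Integrable (fun p : ℝ × ℝ => (1 : ℝ) * (gw p.2 * M ^ 4))
          ((volume.restrict (Set.Ioc (-T) T)).prod volume) := by
        refine Integrable.mul_prod (f := fun _ : ℝ => (1 : ℝ)) (g := fun v => gw v * M ^ 4) ?_ (gw_int.mul_const _)
        exact integrable_const _
      refine hb.mono' ?_ (Eventually.of_forall fun p => ?_)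
      · have : Continuous (fun p : ℝ × ℝ => gw p.2 * f (p.1 + p.2) ^ 4) :=
          (gw_cont.comp continuous_snd).mul ((h.cont.comp (continuous_fst.add continuous_snd)).pow 4)
        exact this.aestronglyMeasurable
      · simp only [Function.uncurry]
        rw [Real.norm_of_nonneg (mul_nonneg (gw_pos _).le (pow_nonneg (h.nonneg _) _)), one_mul]
        exact mul_le_mul_of_nonneg_left (pow_le_pow_left₀ (h.nonneg _) (hM _) 4) (gw_pos _).le
  have hS : 0 ≤ S := by
    refine le_trans ?_ (h.mom 0)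
    exact intervalIntegral.integral_nonneg (by linarith) fun t _ => pow_nonneg (h.nonneg _) _
  have h3 : ∫ v, ∫ t in (-T)..T, gw v * f (t + v) ^ 4 ≤ ∫ v, gw v * S := by
    refine integral_mono_of_nonneg (Eventually.of_forall fun v => ?_) (gw_int.mul_const _)
      (Eventually.of_forall fun v => ?_)
    · exact intervalIntegral.integral_nonneg (by linarith) fun t _ =>
        mul_nonneg (gw_pos v).le (pow_nonneg (h.nonneg _) _)
    · simp only
      rw [intervalIntegral.integral_const_mul]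
      exact mul_le_mul_of_nonneg_left (h.mom v) (gw_pos v).le
  rw [h2]
  rw [integral_mul_const, gw_integral] at h3
  have hs : 0 ≤ √(2 * Real.pi) := Real.sqrt_nonneg _
  have hpi : √(2 * Real.pi) ^ 4 ≤ 40 := by
    have e1 : √(2 * Real.pi) ^ 4 = (√(2 * Real.pi) ^ 2) ^ 2 := by ring
    rw [e1, Real.sq_sqrt (by positivity)]
    have := Real.pi_lt_d2
    have := Real.pi_gt_three
    nlinarith
  calc √(2 * Real.pi) ^ 3 * ∫ v, ∫ t in (-T)..T, gw v * f (t + v) ^ 4
      ≤ √(2 * Real.pi) ^ 3 * (√(2 * Real.pi) * S) := mul_le_mul_of_nonneg_left h3 (by positivity)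
    _ = √(2 * Real.pi) ^ 4 * S := by ring
    _ ≤ 40 * S := mul_le_mul_of_nonneg_right hpi hS

/-- a line integral is bounded by a convolution -/
theorem line_le {h : ℝ → ℂ} {f : ℝ → ℝ} {M c t : ℝ} (hf : Continuous f) (h0 : ∀ u, 0 ≤ f u) (hM : ∀ u, f u ≤ M)
    (hh : ∀ v, ‖h v‖ ≤ c * (gw v * f (t + v))) : ‖∫ v, h v‖ ≤ c * cv f t := by
  have i1 := cv_integrable hf h0 hM 1 t
  simp only [pow_one] at i1
  unfold cv
  rw [← integral_const_mul]
  exact norm_integral_le_of_norm_le (i1.const_mul c) (Eventually.of_forall hh)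

/-- continuous functions with Gaussian decay are integrable -/
theorem gauss_int {h : ℝ → ℂ} {C : ℝ} (hc : Continuous h) (hh : ∀ v, ‖h v‖ ≤ C * gw v) : Integrable h :=
  (gw_int.const_mul C).mono' hc.aestronglyMeasurable (Eventually.of_forall hh)

/-- `(1 + |v|)^2 exp(-v²) ≤ 4 exp(-v²/2)` -/
theorem poly_gauss (v : ℝ) : (1 + |v|) ^ 2 * Real.exp (-v ^ 2) ≤ 4 * gw v := by
  unfold gw
  have h1 : (1 + |v|) ^ 2 ≤ 4 * Real.exp ((1 / 2) * v ^ 2) := by
    have h2 := Real.add_one_le_exp ((1 / 2) * v ^ 2)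
    have h3 : |v| ^ 2 = v ^ 2 := sq_abs v
    nlinarith [sq_nonneg (|v| - 1)]
  calc (1 + |v|) ^ 2 * Real.exp (-v ^ 2) ≤ 4 * Real.exp ((1 / 2) * v ^ 2) * Real.exp (-v ^ 2) :=
        mul_le_mul_of_nonneg_right h1 (Real.exp_pos _).le
    _ = 4 * Real.exp (-(1 / 2) * v ^ 2) := by
        rw [mul_assoc, ← Real.exp_add]
        congr 2
        ring

end Pool.Agent.V5helper35.CR6.FM
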