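import Mathlib

/-!
# Project CR6, job FMC, part 4: the factors in the functional equation
-/

set_option autoImplicit false

namespace Pool.Agent.V5helper35.CR6.FM

open Complex MeasureTheory

/-- the factors in the functional equation, `ε = ± 1` -/
noncomputable def AA (q : ℕ) (ε : ℝ) (z : ℂ) : ℂ :=
  (q : ℂ) ^ (z - 1) * (2 * (Real.pi : ℂ)) ^ (-z) * Complex.Gamma z * cexp ((ε : ℂ) * Real.pi * I * z / 2)

/-- `|Γ(1/2+iy)|² cosh(πy) = π` -/
theorem half (y : ℝ) :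
    ‖Complex.Gamma (((1 / 2 : ℝ) : ℂ) + (y : ℂ) * I)‖ ^ 2 * Real.cosh (Real.pi * y) = Real.pi := by
  have h := Complex.Gamma_mul_Gamma_one_sub (((1 / 2 : ℝ) : ℂ) + (y : ℂ) * I)
  have h1 : (1 : ℂ) - (((1 / 2 : ℝ) : ℂ) + (y : ℂ) * I) =
      (starRingEnd ℂ) (((1 / 2 : ℝ) : ℂ) + (y : ℂ) * I) := by
    rw [map_add, map_mul, Complex.conj_ofReal, Complex.conj_ofReal, Complex.conj_I]
    push_cast
    ring
  rw [h1, Complex.Gamma_conj, Complex.mul_conj] at h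
  have h2 : Complex.sin ((Real.pi : ℂ) * (((1 / 2 : ℝ) : ℂ) + (y : ℂ) * I)) =
      ((Real.cosh (Real.pi * y) : ℝ) : ℂ) := by
    have e : (Real.pi : ℂ) * (((1 / 2 : ℝ) : ℂ) + (y : ℂ) * I) =
        ((Real.pi * y : ℝ) : ℂ) * I + Real.pi / 2 := by
      push_cast
      ring
    rw [e, Complex.sin_add_pi_div_two, Complex.cos_mul_I, Complex.ofReal_cosh]
  rw [h2, ← Complex.ofReal_div] at h
  have h3 := Complex.ofReal_injective h
  rw [Complex.normSq_eq_norm_sq] at h3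
  have hc : 0 < Real.cosh (Real.pi * y) := Real.cosh_pos _
  rw [h3]
  field_simp

theorem norm_Gamma_le {z : ℂ} (hz : 0 < z.re) : ‖Complex.Gamma z‖ ≤ Real.Gamma z.re := by
  rw [Complex.Gamma_eq_integral hz, Real.Gamma_eq_integral hz]
  unfold Complex.GammaIntegral
  refine (norm_integral_le_integral_norm _).trans (le_of_eq ?_)
  refine setIntegral_congr_fun measurableSet_Ioi (fun t ht => ?_)
  have ht' : (0 : ℝ) < t := ht
  simp only [norm_mul]
  rw [Complex.norm_cpow_eq_rpow_re_of_pos ht', Complex.norm_real, Real.norm_eq_abs,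
    abs_of_pos (Real.exp_pos _)]
  simp

theorem norm_expz (ε : ℝ) (z : ℂ) : ‖cexp ((ε : ℂ) * Real.pi * I * z / 2)‖ = Real.exp (-(ε * Real.pi * z.im / 2)) := by
  rw [Complex.norm_exp]
  congr 1
  have : (ε : ℂ) * Real.pi * I * z / 2 = ((ε * Real.pi / 2 : ℝ) : ℂ) * (I * z) := by push_cast; ring
  rw [this, Complex.re_ofReal_mul]
  simp
  ring

theorem norm_twopi (z : ℂ) : ‖(2 * (Real.pi : ℂ)) ^ (-z)‖ = (2 * Real.pi) ^ (-z.re) := by
  have : (2 * (Real.pi : ℂ)) = ((2 * Real.pi : ℝ) : ℂ) := by push_cast; ring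
  rw [this, Complex.norm_cpow_eq_rpow_re_of_pos (by positivity)]
  simp

/-- the product of the Gamma function and the exponential on `Re z = 1/2` -/
theorem gam_half (ε : ℝ) (hε : |ε| ≤ 1) (y : ℝ) :
    ‖Complex.Gamma (((1 / 2 : ℝ) : ℂ) + (y : ℂ) * I)‖ * Real.exp (-(ε * Real.pi * y / 2)) ≤ √(2 * Real.pi) := by
  have h1 := half y
  set u := ‖Complex.Gamma (((1 / 2 : ℝ) : ℂ) + (y : ℂ) * I)‖ with hu
  have hu0 : 0 ≤ u := norm_nonneg _
  apply Real.le_sqrt_of_sq_le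
  have h2 : (u * Real.exp (-(ε * Real.pi * y / 2))) ^ 2 = u ^ 2 * Real.exp (-(ε * Real.pi * y)) := by
    rw [mul_pow, ← Real.exp_nat_mul]
    congr 2
    push_cast
    ring
  rw [h2]
  have h3 : Real.exp (-(ε * Real.pi * y)) ≤ 2 * Real.cosh (Real.pi * y) := by
    rw [Real.cosh_eq]
    have h4 : -(ε * Real.pi * y) ≤ |Real.pi * y| := by
      have : -(ε * Real.pi * y) ≤ |ε * (Real.pi * y)| := by
        rw [← mul_assoc]; exact neg_le_abs _
      refine this.trans ?_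
      rw [abs_mul]
      calc |ε| * |Real.pi * y| ≤ 1 * |Real.pi * y| := mul_le_mul_of_nonneg_right hε (abs_nonneg _)
        _ = _ := one_mul _
    have h5 : Real.exp |Real.pi * y| ≤ Real.exp (Real.pi * y) + Real.exp (-(Real.pi * y)) := by
      rcases abs_cases (Real.pi * y) with h | h
      · rw [h.1]; linarith [Real.exp_pos (-(Real.pi * y))]
      · rw [h.1]; linarith [Real.exp_pos (Real.pi * y)]
    have := Real.exp_le_exp.mpr h4
    linarith
  calc u ^ 2 * Real.exp (-(ε * Real.pi * y)) ≤ u ^ 2 * (2 * Real.cosh (Real.pi * y)) :=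
        mul_le_mul_of_nonneg_left h3 (sq_nonneg _)
    _ = 2 * (u ^ 2 * Real.cosh (Real.pi * y)) := by ring
    _ = 2 * Real.pi := by rw [h1]

/-- on the line `Re z = 1/2` -/
theorem AA_half {q : ℕ} (hq : 1 ≤ q) (ε : ℝ) (hε : |ε| ≤ 1) (y : ℝ) : ‖AA q ε (((1 / 2 : ℝ) : ℂ) + (y : ℂ) * I)‖ ≤ 1 := by
  unfold AA
  rw [norm_mul, norm_mul, norm_mul, norm_expz, norm_twopi, Complex.norm_natCast_cpow_of_pos (by omega)]
  have e1 : (((1 / 2 : ℝ) : ℂ) + (y : ℂ) * I).im = y := by simp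
  have e2 : (((1 / 2 : ℝ) : ℂ) + (y : ℂ) * I).re = 1 / 2 := by simp
  have e3 : ((((1 / 2 : ℝ) : ℂ) + (y : ℂ) * I) - 1).re = -(1 / 2) := by
    rw [Complex.sub_re, e2, Complex.one_re]; norm_num
  rw [e1, e2, e3]
  have h1 := gam_half ε hε y
  have hq1 : (1 : ℝ) ≤ q := by exact_mod_cast hq
  have h2 : (q : ℝ) ^ (-(1 / 2) : ℝ) ≤ 1 := Real.rpow_le_one_of_one_le_of_nonpos hq1 (by norm_num)
  have h3 : (2 * Real.pi) ^ (-(1 / 2) : ℝ) = 1 / √(2 * Real.pi) := by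
    rw [Real.rpow_neg (by positivity), ← Real.sqrt_eq_rpow, one_div]
  have h4 : 0 < √(2 * Real.pi) := Real.sqrt_pos.mpr (by positivity)
  rw [h3]
  calc (q : ℝ) ^ (-(1 / 2) : ℝ) * (1 / √(2 * Real.pi)) * ‖Complex.Gamma (((1 / 2 : ℝ) : ℂ) + (y : ℂ) * I)‖ *
        Real.exp (-(ε * Real.pi * y / 2))
      = (q : ℝ) ^ (-(1 / 2) : ℝ) * ((1 / √(2 * Real.pi)) * (‖Complex.Gamma (((1 / 2 : ℝ) : ℂ) + (y : ℂ) * I)‖ *
        Real.exp (-(ε * Real.pi * y / 2)))) := by ring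
    _ ≤ 1 * ((1 / √(2 * Real.pi)) * √(2 * Real.pi)) := by
        refine mul_le_mul h2 ?_ (by positivity) zero_le_one
        exact mul_le_mul_of_nonneg_left h1 (by positivity)
    _ = 1 := by field_simp

/-- on the line `Re z = 3/2` -/
theorem AA_three {q : ℕ} (hq : 1 ≤ q) (ε : ℝ) (hε : |ε| ≤ 1) (y : ℝ) :
    ‖AA q ε (((3 / 2 : ℝ) : ℂ) + (y : ℂ) * I)‖ ≤ q * (1 + |y|) := by
  unfold AA
  rw [norm_mul, norm_mul, norm_mul, norm_expz, norm_twopi, Complex.norm_natCast_cpow_of_pos (by omega)]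
  have e1 : (((3 / 2 : ℝ) : ℂ) + (y : ℂ) * I).im = y := by simp
  have e2 : (((3 / 2 : ℝ) : ℂ) + (y : ℂ) * I).re = 3 / 2 := by simp
  have e3 : ((((3 / 2 : ℝ) : ℂ) + (y : ℂ) * I) - 1).re = 1 / 2 := by
    rw [Complex.sub_re, e2, Complex.one_re]; norm_num
  rw [e1, e2, e3]
  have h1 := gam_half ε hε y
  have hq1 : (1 : ℝ) ≤ q := by exact_mod_cast hq
  have h2 : (q : ℝ) ^ (1 / 2 : ℝ) ≤ q := by
    calc (q : ℝ) ^ (1 / 2 : ℝ) ≤ (q : ℝ) ^ (1 : ℝ) := Real.rpow_le_rpow_of_exponent_le hq1 (by norm_num)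
      _ = q := Real.rpow_one _
  have h4 : 0 < √(2 * Real.pi) := Real.sqrt_pos.mpr (by positivity)
  have h3 : (2 * Real.pi) ^ (-(3 / 2) : ℝ) ≤ 1 / √(2 * Real.pi) := by
    have : 1 / √(2 * Real.pi) = (2 * Real.pi) ^ (-(1 / 2) : ℝ) := by
      rw [Real.rpow_neg (by positivity), ← Real.sqrt_eq_rpow, one_div]
    rw [this]
    apply Real.rpow_le_rpow_of_exponent_le
    · have := Real.pi_gt_three; linarith
    · norm_num
  have h5 : Complex.Gamma (((3 / 2 : ℝ) : ℂ) + (y : ℂ) * I) =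
      (((1 / 2 : ℝ) : ℂ) + (y : ℂ) * I) * Complex.Gamma (((1 / 2 : ℝ) : ℂ) + (y : ℂ) * I) := by
    rw [← Complex.Gamma_add_one]
    · congr 1
      push_cast
      ring
    · intro h
      have := congrArg Complex.re h
      simp at this
  have h6 : ‖(((1 / 2 : ℝ) : ℂ) + (y : ℂ) * I)‖ ≤ 1 + |y| := by
    refine (norm_add_le _ _).trans ?_
    rw [norm_mul, Complex.norm_I, Complex.norm_real, Complex.norm_real, Real.norm_eq_abs, Real.norm_eq_abs, mul_one]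
    have : |(1 / 2 : ℝ)| = 1 / 2 := by rw [abs_of_pos]; norm_num
    rw [this]
    linarith
  rw [h5, norm_mul]
  set G := ‖Complex.Gamma (((1 / 2 : ℝ) : ℂ) + (y : ℂ) * I)‖ with hG
  have hG0 : 0 ≤ G := norm_nonneg _
  calc (q : ℝ) ^ (1 / 2 : ℝ) * (2 * Real.pi) ^ (-(3 / 2) : ℝ) * (‖(((1 / 2 : ℝ) : ℂ) + (y : ℂ) * I)‖ * G) *
        Real.exp (-(ε * Real.pi * y / 2))
      = ((q : ℝ) ^ (1 / 2 : ℝ) * ‖(((1 / 2 : ℝ) : ℂ) + (y : ℂ) * I)‖) * ((2 * Real.pi) ^ (-(3 / 2) : ℝ) *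
        (G * Real.exp (-(ε * Real.pi * y / 2)))) := by ring
    _ ≤ (q * (1 + |y|)) * ((1 / √(2 * Real.pi)) * √(2 * Real.pi)) := by
        refine mul_le_mul (mul_le_mul h2 h6 (norm_nonneg _) (by positivity)) ?_ (by positivity) (by positivity)
        exact mul_le_mul h3 h1 (by positivity) (by positivity)
    _ = q * (1 + |y|) := by field_simp

/-- a crude bound in the strip -/
theorem AA_crude {q : ℕ} (hq : 1 ≤ q) (ε : ℝ) (hε : |ε| ≤ 1) :
    ∃ C : ℝ, 0 ≤ C ∧ ∀ z : ℂ, 1 / 2 ≤ z.re → z.re ≤ 3 / 2 → ‖AA q ε z‖ ≤ C * Real.exp (2 * |z.im|) := by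
  have hcont : ContinuousOn Real.Gamma (Set.Icc (1 / 2) (3 / 2)) := by
    intro x hx
    refine (Real.differentiableAt_Gamma fun m => ?_).continuousAt.continuousWithinAt
    have : 0 < x := lt_of_lt_of_le (by norm_num) hx.1
    have hm : (0 : ℝ) ≤ m := Nat.cast_nonneg m
    intro h
    linarith
  obtain ⟨G, hG⟩ := isCompact_Icc.exists_bound_of_continuousOn hcont
  have hq1 : (1 : ℝ) ≤ q := by exact_mod_cast hq
  have hG0 : 0 ≤ G := (norm_nonneg _).trans (hG 1 ⟨by norm_num, by norm_num⟩)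
  refine ⟨q * G, by positivity, fun z h1 h2 => ?_⟩
  unfold AA
  rw [norm_mul, norm_mul, norm_mul, norm_expz, norm_twopi, Complex.norm_natCast_cpow_of_pos (by omega)]
  have e3 : (z - 1).re = z.re - 1 := by simp
  rw [e3]
  have a1 : (q : ℝ) ^ (z.re - 1) ≤ q := by
    calc (q : ℝ) ^ (z.re - 1) ≤ (q : ℝ) ^ (1 : ℝ) := Real.rpow_le_rpow_of_exponent_le hq1 (by linarith)
      _ = q := Real.rpow_one _
  have a2 : (2 * Real.pi) ^ (-z.re) ≤ 1 := by
    apply Real.rpow_le_one_of_one_le_of_nonpos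
    · have := Real.pi_gt_three; linarith
    · linarith
  have a3 : ‖Complex.Gamma z‖ ≤ G := by
    refine (norm_Gamma_le (by linarith)).trans ?_
    have := hG z.re ⟨h1, h2⟩
    rwa [Real.norm_of_nonneg (Real.Gamma_pos_of_pos (by linarith)).le] at this
  have a4 : Real.exp (-(ε * Real.pi * z.im / 2)) ≤ Real.exp (2 * |z.im|) := by
    refine Real.exp_le_exp.mpr ?_
    have b1 : -(ε * Real.pi * z.im / 2) ≤ |ε * (Real.pi / 2 * z.im)| := by
      have : ε * Real.pi * z.im / 2 = ε * (Real.pi / 2 * z.im) := by ring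
      rw [this]; exact neg_le_abs _
    refine b1.trans ?_
    rw [abs_mul, abs_mul, abs_of_pos (by positivity : 0 < Real.pi / 2)]
    have b2 : Real.pi / 2 ≤ 2 := by have := Real.pi_lt_d2; linarith
    calc |ε| * (Real.pi / 2 * |z.im|) ≤ 1 * (2 * |z.im|) := by
          refine mul_le_mul hε ?_ (by positivity) zero_le_one
          exact mul_le_mul_of_nonneg_right b2 (abs_nonneg _)
      _ = _ := one_mul _
  calc (q : ℝ) ^ (z.re - 1) * (2 * Real.pi) ^ (-z.re) * ‖Complex.Gamma z‖ * Real.exp (-(ε * Real.pi * z.im / 2))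
      ≤ q * 1 * G * Real.exp (2 * |z.im|) := by
        refine mul_le_mul ?_ a4 (Real.exp_pos _).le (by positivity)
        refine mul_le_mul ?_ a3 (norm_nonneg _) (by positivity)
        exact mul_le_mul a1 a2 (by positivity) (by positivity)
    _ = _ := by ring

theorem AA_diff {q : ℕ} (hq : 1 ≤ q) (ε : ℝ) {z : ℂ} (hz : 0 < z.re) : DifferentiableAt ℂ (AA q ε) z := by
  unfold AA
  have hq0 : (q : ℂ) ≠ 0 := by
    have : q ≠ 0 := by omega
    exact_mod_cast this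
  have hpi : (2 * (Real.pi : ℂ)) ≠ 0 := by
    have : (Real.pi : ℂ) ≠ 0 := by exact_mod_cast Real.pi_ne_zero
    simp [this]
  have h1 : DifferentiableAt ℂ (fun z : ℂ => (q : ℂ) ^ (z - 1)) z :=
    (differentiableAt_id.sub_const 1).const_cpow (Or.inl hq0)
  have h2 : DifferentiableAt ℂ (fun z : ℂ => (2 * (Real.pi : ℂ)) ^ (-z)) z :=
    (differentiableAt_id.neg).const_cpow (Or.inl hpi)
  have h3 : DifferentiableAt ℂ Complex.Gamma z := by
    refine Complex.differentiableAt_Gamma _ (fun m h => ?_)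
    have := congrArg Complex.re h
    simp at this
    have hm : (0 : ℝ) ≤ m := Nat.cast_nonneg m
    linarith
  have h4 : DifferentiableAt ℂ (fun z : ℂ => cexp ((ε : ℂ) * Real.pi * I * z / 2)) z := by fun_prop
  exact ((h1.mul h2).mul h3).mul h4

open ZMod in
/-- the functional equation -/
theorem fe {q : ℕ} [NeZero q] (Φ : ZMod q → ℂ) {z : ℂ} (hz : 0 < z.re) (hz1 : z ≠ 1) :
    ZMod.LFunction Φ (1 - z) =
      AA q 1 z * ZMod.LFunction (ZMod.dft Φ) z + AA q (-1) z * ZMod.LFunction (ZMod.dft fun x => Φ (-x)) z := by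
  have h := ZMod.LFunction_one_sub Φ (s := z) (fun n h => by
    have h1 := congrArg Complex.re h
    simp at h1
    have hm : (0 : ℝ) ≤ n := Nat.cast_nonneg n
    linarith) (Or.inr hz1)
  rw [h]
  unfold AA
  push_cast
  have e1 : (1 : ℂ) * Real.pi * I * z / 2 = Real.pi * I * z / 2 := by ring
  have e2 : (-1 : ℂ) * Real.pi * I * z / 2 = -Real.pi * I * z / 2 := by ring
  rw [e1, e2]
  ring

theorem dft_bound {q : ℕ} [NeZero q] (Φ : ZMod q → ℂ) (hΦ : ∀ j, ‖Φ j‖ ≤ 1) (k : ZMod q) : ‖ZMod.dft Φ k‖ ≤ q := by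
  rw [ZMod.dft_apply]
  refine (norm_sum_le _ _).trans ?_
  have : ∀ j ∈ (Finset.univ : Finset (ZMod q)), ‖ZMod.stdAddChar (-(j * k)) • Φ j‖ ≤ 1 := by
    intro j _
    rw [norm_smul]
    have h1 : ‖(ZMod.stdAddChar (-(j * k)) : ℂ)‖ = 1 := by
      exact AddChar.norm_apply _ _
    rw [h1, one_mul]
    exact hΦ j
  refine (Finset.sum_le_sum this).trans ?_
  simp

end Pool.Agent.V5helper35.CR6.FM
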