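import Pool.Agent.V5helper35.CR6.FM.Line

/-!
# Project CR6, job FMC, part 6: the approximate functional equation
-/

set_option autoImplicit false

namespace Pool.Agent.V5helper35.CR6.FM

open Complex MeasureTheory Filter Topology Set

variable {q : ℕ} [NeZero q]

theorem tail_z {Ψ : ZMod q → ℂ} {B : ℝ} (hB : ∀ j, ‖Ψ j‖ ≤ B) {N : ℕ} (hN : 1 ≤ N) {z : ℂ} (hz : 3 / 2 ≤ z.re) :
    ‖ZMod.LFunction Ψ z - PP Ψ N z‖ ≤ 2 * B := by
  have h := tail hB hz N hN z.im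
  rw [← PP_line, Complex.re_add_im] at h
  refine h.trans ?_
  have hB0 : 0 ≤ B := (norm_nonneg _).trans (hB 0)
  refine div_le_self (by positivity) ?_
  rw [Real.one_le_sqrt]
  exact_mod_cast hN

theorem L_diff (Ψ : ZMod q → ℂ) {z : ℂ} (hz : z.re ≠ 1) : DifferentiableAt ℂ (ZMod.LFunction Ψ) z :=
  ZMod.differentiableAt_LFunction Ψ z (Or.inl (by
    intro h
    rw [h] at hz
    exact hz rfl))

/-- crossing the pole -/
theorem cross1 (Φ : ZMod q → ℂ) {N : ℕ} (hN : 1 ≤ N) {κ : ℝ} (hκ : 0 < κ) (hκ1 : κ ≤ 1 / 4) {s : ℂ}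
    (hs : s.re = 1 / 2 + κ) :
    (∫ v : ℝ, Ef Φ (s + ((1 : ℝ) + v * I)) * KK N ((1 : ℝ) + v * I)) -
      ∫ v : ℝ, Ef Φ (s + ((-1 - κ : ℝ) + v * I)) * KK N ((-1 - κ : ℝ) + v * I) =
      2 * Real.pi * ((s - 1) * ZMod.LFunction Φ s) := by
  obtain ⟨C, hC0, hC⟩ := Ef_growth Φ
  have hn0 : (N : ℂ) ≠ 0 := by
    have : N ≠ 0 := by omega
    exact_mod_cast this
  have hN1 : (1 : ℝ) ≤ N := by exact_mod_cast hN
  have hH : Differentiable ℂ (fun w : ℂ => Ef Φ (s + w) * (N : ℂ) ^ w) := by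
    intro w
    refine DifferentiableAt.mul ?_ (differentiableAt_id.const_cpow (Or.inl hn0))
    exact DifferentiableAt.comp w (Ef_diff Φ _) (differentiableAt_id.const_add s)
  have h := Pool.Agent.N846.DT.cross hH (a := -1 - κ) (b := 1) (C := C * Real.exp |s.im| * N) (by linarith)
    one_pos (fun w h1 h2 => by
      rw [norm_mul, Complex.norm_natCast_cpow_of_pos (by omega)]
      have h3 : ‖Ef Φ (s + w)‖ ≤ C * (Real.exp |s.im| * Real.exp |w.im|) := by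
        refine (hC (s + w) (by rw [add_re, hs]; linarith) (by rw [add_re, hs]; linarith)).trans ?_
        refine mul_le_mul_of_nonneg_left ?_ hC0
        rw [← Real.exp_add]
        refine Real.exp_le_exp.mpr ?_
        rw [add_im]
        exact abs_add_le _ _
      have h4 : (N : ℝ) ^ w.re ≤ N := by
        calc (N : ℝ) ^ w.re ≤ (N : ℝ) ^ (1 : ℝ) := Real.rpow_le_rpow_of_exponent_le hN1 h2
          _ = N := Real.rpow_one _
      calc ‖Ef Φ (s + w)‖ * (N : ℝ) ^ w.re ≤ (C * (Real.exp |s.im| * Real.exp |w.im|)) * N :=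
            mul_le_mul h3 h4 (by positivity) (by positivity)
        _ = _ := by ring)
  have hs1 : s ≠ 1 := by
    intro h
    rw [h] at hs
    simp at hs
    linarith
  have e0 : Ef Φ (s + 0) * (N : ℂ) ^ (0 : ℂ) = (s - 1) * ZMod.LFunction Φ s := by
    rw [add_zero, Complex.cpow_zero, mul_one, Ef_of_ne Φ hs1]
  rw [e0] at h
  rw [← h]
  congr 1
  · congr 1
    ext v
    unfold KK
    ring
  · congr 1
    ext v
    unfold KK
    ring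

/-- the integrand on a line -/
noncomputable def LJ (N : ℕ) (s : ℂ) (c : ℝ) (X : ℂ → ℂ) (v : ℝ) : ℂ :=
  ((s + (c + v * I) - 1) * KK N (c + v * I)) * X (c + v * I)

/-- integrability on a line -/
theorem right_int (X : ℂ → ℂ) {N : ℕ} (hN : 1 ≤ N) (s : ℂ) (c D : ℝ) (hc : c ≠ 0) (hc2 : |c| ≤ 5 / 4) (hD : 0 ≤ D)
    (hX : ∀ w : ℂ, w.re = c → DifferentiableAt ℂ X w) (hXD : ∀ w : ℂ, w.re = c → ‖X w‖ ≤ D * Real.exp (2 * |w.im|)) :
    Integrable (LJ N s c X) := by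
  obtain ⟨C, hC0, hC⟩ := fac_crude hN s (δ := |c|) (abs_pos.mpr hc)
  unfold LJ
  refine line_int_gauss (H := fun w => ((s + w - 1) * KK N w) * X w) (a := c) (C := C * D) (K := 3) (by positivity)
    (fun w hw => ?_) (fun w hw => ?_)
  · have hw0 : w ≠ 0 := by
      intro h
      rw [h] at hw
      exact hc (by simpa using hw.symm)
    exact DifferentiableAt.mul (DifferentiableAt.mul (by fun_prop) (KK_diff hN hw0)) (hX w hw)
  · rw [norm_mul]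
    have h1 := hC w (by rw [hw]) (by rw [hw]; exact hc2)
    have h2 := hXD w hw
    calc ‖(s + w - 1) * KK N w‖ * ‖X w‖ ≤ (C * Real.exp (|w.im| - w.im ^ 2)) * (D * Real.exp (2 * |w.im|)) :=
          mul_le_mul h1 h2 (norm_nonneg _) (by positivity)
      _ = C * D * (Real.exp (|w.im| - w.im ^ 2) * Real.exp (2 * |w.im|)) := by ring
      _ = _ := by
          rw [← Real.exp_add]
          congr 2
          ring

/-- shifting lines on one side of the pole -/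
theorem one_shift (X : ℂ → ℂ) {N : ℕ} (hN : 1 ≤ N) (s : ℂ) (a b D δ : ℝ) (hab : a ≤ b) (hδ : 0 < δ)
    (hsd : ∀ c : ℝ, a ≤ c → c ≤ b → δ ≤ |c| ∧ |c| ≤ 5 / 4) (hD : 0 ≤ D)
    (hX : ∀ w : ℂ, a ≤ w.re → w.re ≤ b → DifferentiableAt ℂ X w)
    (hXD : ∀ w : ℂ, a ≤ w.re → w.re ≤ b → ‖X w‖ ≤ D * Real.exp (2 * |w.im|)) :
    ∫ v : ℝ, LJ N s a X v = ∫ v : ℝ, LJ N s b X v := by
  obtain ⟨C, hC0, hC⟩ := fac_crude hN s (δ := δ) hδ
  unfold LJ
  refine shift_gauss (H := fun w => ((s + w - 1) * KK N w) * X w) (a := a) (b := b) (C := C * D) (K := 3) hab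
    (by positivity) (fun w h1 h2 => ?_) (fun w h1 h2 => ?_)
  · have hw0 : w ≠ 0 := by
      intro h
      have := (hsd w.re h1 h2).1
      rw [h] at this
      simp at this
      linarith
    exact DifferentiableAt.mul (DifferentiableAt.mul (by fun_prop) (KK_diff hN hw0)) (hX w h1 h2)
  · rw [norm_mul]
    have h3 := hC w (hsd w.re h1 h2).1 (hsd w.re h1 h2).2
    have h4 := hXD w h1 h2
    calc ‖(s + w - 1) * KK N w‖ * ‖X w‖ ≤ (C * Real.exp (|w.im| - w.im ^ 2)) * (D * Real.exp (2 * |w.im|)) :=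
          mul_le_mul h3 h4 (norm_nonneg _) (by positivity)
      _ = C * D * (Real.exp (|w.im| - w.im ^ 2) * Real.exp (2 * |w.im|)) := by ring
      _ = _ := by
          rw [← Real.exp_add]
          congr 2
          ring

/-- bound of a line integral by a convolution -/
theorem line_bound (X : ℂ → ℂ) {N : ℕ} (hN : 1 ≤ N) {s : ℂ} (hs : 1 / 4 ≤ ‖s - 1‖) {c t D : ℝ} (hc : c ≠ 0)
    (hc2 : |c| ≤ 5 / 4) (hD : 0 ≤ D) {f : ℝ → ℝ} (hf : Continuous f) (h0 : ∀ u, 0 ≤ f u) (hM : ∃ M, ∀ u, f u ≤ M)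
    (hX : ∀ v : ℝ, ‖X (c + v * I)‖ ≤ (1 + |v|) * (D * f (t + v))) :
    ‖∫ v : ℝ, LJ N s c X v‖ ≤ ‖s - 1‖ * (120 * ((N : ℝ) ^ c / |c|) * D * cv f t) := by
  obtain ⟨M, hM⟩ := hM
  have key : ‖∫ v : ℝ, LJ N s c X v‖ ≤ (‖s - 1‖ * (120 * ((N : ℝ) ^ c / |c|) * D)) * cv f t := by
    refine line_le hf h0 hM (fun v => ?_)
    have h1 := fac_norm hN hs hc hc2 v
    have h2 := hX v
    have h3 : 0 ≤ D * f (t + v) := mul_nonneg hD (h0 _)
    unfold LJ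
    rw [norm_mul]
    calc ‖(s + (c + v * I) - 1) * KK N (c + v * I)‖ * ‖X (c + v * I)‖
        ≤ ‖(s + (c + v * I) - 1) * KK N (c + v * I)‖ * ((1 + |v|) * (D * f (t + v))) :=
          mul_le_mul_of_nonneg_left h2 (norm_nonneg _)
      _ = (‖(s + (c + v * I) - 1) * KK N (c + v * I)‖ * (1 + |v|)) * (D * f (t + v)) := by ring
      _ ≤ (‖s - 1‖ * ((N : ℝ) ^ c / |c|) * 120 * gw v) * (D * f (t + v)) := mul_le_mul_of_nonneg_right h1 h3
      _ = _ := by ring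
  refine key.trans (le_of_eq ?_)
  ring

/-- tail, right -/
noncomputable def XR (Φ : ZMod q → ℂ) (N : ℕ) (s w : ℂ) : ℂ := ZMod.LFunction Φ (s + w) - PP Φ N (s + w)

/-- head, right -/
noncomputable def XP (Φ : ZMod q → ℂ) (N : ℕ) (s w : ℂ) : ℂ := PP Φ N (s + w)

/-- tail, left -/
noncomputable def YR (Ψ : ZMod q → ℂ) (ε : ℝ) (N : ℕ) (s w : ℂ) : ℂ :=
  AA q ε (1 - (s + w)) * (ZMod.LFunction Ψ (1 - (s + w)) - PP Ψ N (1 - (s + w)))

/-- head, left -/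
noncomputable def YP (Ψ : ZMod q → ℂ) (ε : ℝ) (N : ℕ) (s w : ℂ) : ℂ := AA q ε (1 - (s + w)) * PP Ψ N (1 - (s + w))

theorem lin_diff (s : ℂ) : Differentiable ℂ (fun w : ℂ => s + w) := by fun_prop

theorem lin_diff' (s : ℂ) : Differentiable ℂ (fun w : ℂ => 1 - (s + w)) := by fun_prop

omit [NeZero q] in
theorem XP_diff (Φ : ZMod q → ℂ) (N : ℕ) (s w : ℂ) : DifferentiableAt ℂ (XP Φ N s) w :=
  ((PP_diff Φ N).comp (lin_diff s)) w

theorem XR_diff (Φ : ZMod q → ℂ) (N : ℕ) (s w : ℂ) (h : (s + w).re ≠ 1) : DifferentiableAt ℂ (XR Φ N s) w :=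
  DifferentiableAt.sub (DifferentiableAt.comp (g := ZMod.LFunction Φ) (f := fun w : ℂ => s + w) w (L_diff Φ h) (lin_diff s w))
    (XP_diff Φ N s w)

omit [NeZero q] in
theorem YP0_diff (Ψ : ZMod q → ℂ) (N : ℕ) (s w : ℂ) : DifferentiableAt ℂ (fun w => PP Ψ N (1 - (s + w))) w :=
  ((PP_diff Ψ N).comp (lin_diff' s)) w

theorem AA0_diff (ε : ℝ) (s w : ℂ) (h : 0 < (1 - (s + w)).re) : DifferentiableAt ℂ (fun w => AA q ε (1 - (s + w))) w :=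
  DifferentiableAt.comp (g := AA q ε) (f := fun w : ℂ => 1 - (s + w)) w (AA_diff NeZero.one_le ε h) (lin_diff' s w)

theorem L0_diff (Ψ : ZMod q → ℂ) (s w : ℂ) (h : (1 - (s + w)).re ≠ 1) :
    DifferentiableAt ℂ (fun w => ZMod.LFunction Ψ (1 - (s + w))) w :=
  DifferentiableAt.comp (g := ZMod.LFunction Ψ) (f := fun w : ℂ => 1 - (s + w)) w (L_diff Ψ h) (lin_diff' s w)

theorem YP_diff (Ψ : ZMod q → ℂ) (ε : ℝ) (N : ℕ) (s w : ℂ) (h : 0 < (1 - (s + w)).re) :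
    DifferentiableAt ℂ (YP Ψ ε N s) w :=
  (AA0_diff ε s w h).mul (YP0_diff Ψ N s w)

theorem YR_diff (Ψ : ZMod q → ℂ) (ε : ℝ) (N : ℕ) (s w : ℂ) (h : 0 < (1 - (s + w)).re) (h' : (1 - (s + w)).re ≠ 1) :
    DifferentiableAt ℂ (YR Ψ ε N s) w :=
  (AA0_diff ε s w h).mul ((L0_diff Ψ s w h').sub (YP0_diff Ψ N s w))

theorem one_le_exp2 (w : ℂ) : 1 ≤ Real.exp (2 * |w.im|) := Real.one_le_exp (by positivity)

theorem re_z (s w : ℂ) : (1 - (s + w)).re = 1 - s.re - w.re := by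
  simp only [sub_re, one_re, add_re]
  ring

theorem AA0_bound (ε : ℝ) (hε : |ε| ≤ 1) (s : ℂ) : ∃ C : ℝ, 0 ≤ C ∧ ∀ w : ℂ, 1 / 2 ≤ (1 - (s + w)).re →
    (1 - (s + w)).re ≤ 3 / 2 → ‖AA q ε (1 - (s + w))‖ ≤ C * Real.exp (2 * |w.im|) := by
  obtain ⟨C, hC0, hC⟩ := AA_crude (q := q) NeZero.one_le ε hε
  refine ⟨C * Real.exp (2 * |s.im|), by positivity, fun w h1 h2 => ?_⟩
  refine (hC _ h1 h2).trans ?_
  rw [mul_assoc, ← Real.exp_add]
  refine mul_le_mul_of_nonneg_left (Real.exp_le_exp.mpr ?_) hC0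
  have h4 : |(1 - (s + w)).im| ≤ |s.im| + |w.im| := by
    simp only [sub_im, one_im, add_im, zero_sub, abs_neg]
    exact abs_add_le _ _
  linarith

theorem XR_int (Φ : ZMod q → ℂ) (hΦ : ∀ j, ‖Φ j‖ ≤ 1) {N : ℕ} (hN : 1 ≤ N) {κ : ℝ} (hκ : 0 < κ) {s : ℂ}
    (hs : s.re = 1 / 2 + κ) : Integrable (LJ N s 1 (XR Φ N s)) := by
  refine right_int _ hN s 1 2 one_ne_zero (by rw [abs_one]; norm_num) (by norm_num)
    (fun w hw => ?_) (fun w hw => ?_)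
  · refine XR_diff Φ N s w ?_
    rw [add_re, hw, hs]
    intro h; linarith
  · have h1 := tail_z hΦ hN (z := s + w) (by rw [add_re, hw, hs]; linarith)
    have h2 := one_le_exp2 w
    unfold XR
    linarith

omit [NeZero q] in
theorem XP_int (Φ : ZMod q → ℂ) (hΦ : ∀ j, ‖Φ j‖ ≤ 1) {N : ℕ} (hN : 1 ≤ N) {κ : ℝ} (hκ : 0 < κ) {s : ℂ}
    (hs : s.re = 1 / 2 + κ) : Integrable (LJ N s 1 (XP Φ N s)) := by
  refine right_int _ hN s 1 N one_ne_zero (by rw [abs_one]; norm_num) (Nat.cast_nonneg _)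
    (fun w hw => XP_diff Φ N s w) (fun w hw => ?_)
  have h1 := PP_bound hΦ N (z := s + w) (by rw [add_re, hw, hs]; linarith)
  have h2 := one_le_exp2 w
  have h3 : (0 : ℝ) ≤ N := Nat.cast_nonneg _
  unfold XP
  nlinarith

omit [NeZero q] in
theorem XP_shift (Φ : ZMod q → ℂ) (hΦ : ∀ j, ‖Φ j‖ ≤ 1) {N : ℕ} (hN : 1 ≤ N) {κ κ' : ℝ} (hκ : 0 < κ) (hκ' : 0 < κ')
    (hκ'1 : κ' ≤ 1) {s : ℂ} (hs : s.re = 1 / 2 + κ) :
    ∫ v, LJ N s 1 (XP Φ N s) v = ∫ v, LJ N s κ' (XP Φ N s) v := by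
  refine (one_shift _ hN s κ' 1 N κ' hκ'1 hκ' (fun c h1 h2 => ?_) (Nat.cast_nonneg _)
    (fun w _ _ => XP_diff Φ N s w) (fun w h1 h2 => ?_)).symm
  · rw [abs_of_pos (by linarith)]
    exact ⟨h1, by linarith⟩
  · have h3 := PP_bound hΦ N (z := s + w) (by rw [add_re, hs]; linarith)
    have h4 := one_le_exp2 w
    have h5 : (0 : ℝ) ≤ N := Nat.cast_nonneg _
    unfold XP
    nlinarith

theorem YR_int (Ψ : ZMod q → ℂ) (hΨ : ∀ j, ‖Ψ j‖ ≤ q) (ε : ℝ) (hε : |ε| ≤ 1) {N : ℕ} (hN : 1 ≤ N) {κ : ℝ} (hκ : 0 < κ)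
    (hκ1 : κ ≤ 1 / 4) {s : ℂ} (hs : s.re = 1 / 2 + κ) : Integrable (LJ N s (-1 - κ) (YR Ψ ε N s)) := by
  obtain ⟨C, hC0, hC⟩ := AA0_bound (q := q) ε hε s
  refine right_int _ hN s (-1 - κ) (C * (2 * q)) (by intro h; linarith)
    (by rw [abs_of_neg (by linarith)]; linarith) (by positivity) (fun w hw => ?_) (fun w hw => ?_)
  · refine YR_diff Ψ ε N s w ?_ ?_
    · rw [re_z, hw, hs]; linarith
    · rw [re_z, hw, hs]; intro h; linarith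
  · have h1 := hC w (by rw [re_z, hw, hs]; linarith) (by rw [re_z, hw, hs]; linarith)
    have h2 := tail_z hΨ hN (z := 1 - (s + w)) (by rw [re_z, hw, hs]; linarith)
    unfold YR
    rw [norm_mul]
    calc _ ≤ (C * Real.exp (2 * |w.im|)) * (2 * q) := mul_le_mul h1 h2 (norm_nonneg _) (by positivity)
      _ = _ := by ring

theorem YP_int (Ψ : ZMod q → ℂ) (hΨ : ∀ j, ‖Ψ j‖ ≤ q) (ε : ℝ) (hε : |ε| ≤ 1) {N : ℕ} (hN : 1 ≤ N) {κ : ℝ} (hκ : 0 < κ)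
    (hκ1 : κ ≤ 1 / 4) {s : ℂ} (hs : s.re = 1 / 2 + κ) : Integrable (LJ N s (-1 - κ) (YP Ψ ε N s)) := by
  obtain ⟨C, hC0, hC⟩ := AA0_bound (q := q) ε hε s
  refine right_int _ hN s (-1 - κ) (C * (N * q)) (by intro h; linarith)
    (by rw [abs_of_neg (by linarith)]; linarith) (by positivity) (fun w hw => ?_) (fun w hw => ?_)
  · refine YP_diff Ψ ε N s w ?_
    rw [re_z, hw, hs]; linarith
  · have h1 := hC w (by rw [re_z, hw, hs]; linarith) (by rw [re_z, hw, hs]; linarith)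
    have h2 := PP_bound hΨ N (z := 1 - (s + w)) (by rw [re_z, hw, hs]; linarith)
    unfold YP
    rw [norm_mul]
    calc _ ≤ (C * Real.exp (2 * |w.im|)) * (N * q) := mul_le_mul h1 h2 (norm_nonneg _) (by positivity)
      _ = _ := by ring

theorem YP_shift (Ψ : ZMod q → ℂ) (hΨ : ∀ j, ‖Ψ j‖ ≤ q) (ε : ℝ) (hε : |ε| ≤ 1) {N : ℕ} (hN : 1 ≤ N) {κ : ℝ} (hκ : 0 < κ)
    (hκ1 : κ ≤ 1 / 4) {s : ℂ} (hs : s.re = 1 / 2 + κ) :
    ∫ v, LJ N s (-1 - κ) (YP Ψ ε N s) v = ∫ v, LJ N s (-κ) (YP Ψ ε N s) v := by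
  obtain ⟨C, hC0, hC⟩ := AA0_bound (q := q) ε hε s
  refine one_shift _ hN s (-1 - κ) (-κ) (C * (N * q)) κ (by linarith) hκ (fun c h1 h2 => ?_) (by positivity)
    (fun w h1 h2 => ?_) (fun w h1 h2 => ?_)
  · rw [abs_of_neg (by linarith)]
    constructor <;> linarith
  · refine YP_diff Ψ ε N s w ?_
    rw [re_z, hs]; linarith
  · have h3 := hC w (by rw [re_z, hs]; linarith) (by rw [re_z, hs]; linarith)
    have h4 := PP_bound hΨ N (z := 1 - (s + w)) (by rw [re_z, hs]; linarith)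
    unfold YP
    rw [norm_mul]
    calc _ ≤ (C * Real.exp (2 * |w.im|)) * (N * q) := mul_le_mul h3 h4 (norm_nonneg _) (by positivity)
      _ = _ := by ring

theorem right_dec (Φ : ZMod q → ℂ) (hΦ : ∀ j, ‖Φ j‖ ≤ 1) {N : ℕ} (hN : 1 ≤ N) {κ κ' : ℝ} (hκ : 0 < κ) (hκ' : 0 < κ')
    (hκ'1 : κ' ≤ 1) {s : ℂ} (hs : s.re = 1 / 2 + κ) :
    ∫ v : ℝ, Ef Φ (s + ((1 : ℝ) + v * I)) * KK N ((1 : ℝ) + v * I) =
      (∫ v, LJ N s 1 (XR Φ N s) v) + ∫ v, LJ N s κ' (XP Φ N s) v := by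
  rw [← XP_shift Φ hΦ hN hκ hκ' hκ'1 hs, ← integral_add (XR_int Φ hΦ hN hκ hs) (XP_int Φ hΦ hN hκ hs)]
  refine integral_congr_ae (Eventually.of_forall fun v => ?_)
  have hne : s + (((1 : ℝ) : ℂ) + v * I) ≠ 1 := by
    intro h
    have := congrArg Complex.re h
    simp [hs] at this
    linarith
  show Ef Φ (s + (((1 : ℝ) : ℂ) + v * I)) * KK N (((1 : ℝ) : ℂ) + v * I) = _
  rw [Ef_of_ne Φ hne]
  unfold LJ XR XP
  ring

theorem left_dec (Φ : ZMod q → ℂ) (hΦ : ∀ j, ‖Φ j‖ ≤ 1) {N : ℕ} (hN : 1 ≤ N) {κ : ℝ} (hκ : 0 < κ)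
    (hκ1 : κ ≤ 1 / 4) {s : ℂ} (hs : s.re = 1 / 2 + κ) :
    ∫ v : ℝ, Ef Φ (s + ((-1 - κ : ℝ) + v * I)) * KK N ((-1 - κ : ℝ) + v * I) =
      ((∫ v, LJ N s (-1 - κ) (YR (ZMod.dft Φ) 1 N s) v) + ∫ v, LJ N s (-κ) (YP (ZMod.dft Φ) 1 N s) v) +
      ((∫ v, LJ N s (-1 - κ) (YR (ZMod.dft fun x => Φ (-x)) (-1) N s) v) +
        ∫ v, LJ N s (-κ) (YP (ZMod.dft fun x => Φ (-x)) (-1) N s) v) := by
  have hB1 := dft_bound Φ hΦ
  have hB2 := dft_bound (fun x => Φ (-x)) (fun j => hΦ (-j))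
  have i1 := YR_int (ZMod.dft Φ) hB1 1 (by simp) hN hκ hκ1 hs
  have i2 := YP_int (ZMod.dft Φ) hB1 1 (by simp) hN hκ hκ1 hs
  have i3 := YR_int (ZMod.dft fun x => Φ (-x)) hB2 (-1) (by simp) hN hκ hκ1 hs
  have i4 := YP_int (ZMod.dft fun x => Φ (-x)) hB2 (-1) (by simp) hN hκ hκ1 hs
  rw [← YP_shift (ZMod.dft Φ) hB1 1 (by simp) hN hκ hκ1 hs,
    ← YP_shift (ZMod.dft fun x => Φ (-x)) hB2 (-1) (by simp) hN hκ hκ1 hs,
    ← integral_add i1 i2, ← integral_add i3 i4]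
  have i5 := integral_add (i1.add i2) (i3.add i4)
  simp only [Pi.add_apply] at i5
  rw [← i5]
  refine integral_congr_ae (Eventually.of_forall fun v => ?_)
  have hre : (s + (((-1 - κ : ℝ) : ℂ) + v * I)).re = -(1 / 2) := by
    simp [hs]
    ring
  have hne : s + (((-1 - κ : ℝ) : ℂ) + v * I) ≠ 1 := by
    intro h
    rw [h] at hre
    norm_num at hre
  have hz : 0 < (1 - (s + (((-1 - κ : ℝ) : ℂ) + v * I))).re := by
    rw [sub_re, one_re, hre]; norm_num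
  have hz1 : 1 - (s + (((-1 - κ : ℝ) : ℂ) + v * I)) ≠ 1 := by
    intro h
    have := congrArg Complex.re h
    rw [sub_re, one_re, hre] at this
    norm_num at this
  have hfe := fe Φ hz hz1
  rw [sub_sub_cancel] at hfe
  show Ef Φ (s + (((-1 - κ : ℝ) : ℂ) + v * I)) * KK N (((-1 - κ : ℝ) : ℂ) + v * I) = _
  rw [Ef_of_ne Φ hne, hfe]
  unfold LJ YR YP
  ring

/-- **the approximate functional equation** as an identity -/
theorem ident (Φ : ZMod q → ℂ) (hΦ : ∀ j, ‖Φ j‖ ≤ 1) {N : ℕ} (hN : 1 ≤ N) {κ κ' : ℝ} (hκ : 0 < κ) (hκ1 : κ ≤ 1 / 4)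
    (hκ' : 0 < κ') (hκ'1 : κ' ≤ 1) {s : ℂ} (hs : s.re = 1 / 2 + κ) :
    2 * Real.pi * ((s - 1) * ZMod.LFunction Φ s) =
      ((∫ v, LJ N s 1 (XR Φ N s) v) + ∫ v, LJ N s κ' (XP Φ N s) v) -
      (((∫ v, LJ N s (-1 - κ) (YR (ZMod.dft Φ) 1 N s) v) + ∫ v, LJ N s (-κ) (YP (ZMod.dft Φ) 1 N s) v) +
      ((∫ v, LJ N s (-1 - κ) (YR (ZMod.dft fun x => Φ (-x)) (-1) N s) v) +
        ∫ v, LJ N s (-κ) (YP (ZMod.dft fun x => Φ (-x)) (-1) N s) v)) := by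
  rw [← cross1 Φ hN hκ hκ1 hs, right_dec Φ hΦ hN hκ hκ' hκ'1 hs, left_dec Φ hΦ hN hκ hκ1 hs]

end Pool.Agent.V5helper35.CR6.FM
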