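import Pool.Agent.V5helper35.CR6.FM.Tail
import Pool.Agent.V5helper35.CR6.FM.Gam
import Pool.Agent.N846.DT.Cross
import Pool.Agent.H405R2.SM_T6A

/-!
# Project CR6, job FMC, part 5: lines of integration
-/

set_option autoImplicit false

namespace Pool.Agent.V5helper35.CR6.FM

open Complex MeasureTheory Filter Topology Set
open Pool.Agent.TH942.SL (V shift)

theorem exp_poly (K y : ℝ) : Real.exp (K * |y| - y ^ 2) ≤ Real.exp ((K + 2) ^ 2) * (1 + |y|) ^ (-2 : ℝ) := by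
  have h0 : 0 ≤ |y| := abs_nonneg y
  have h1 : (1 + |y|) ^ 2 ≤ Real.exp (2 * |y|) := by
    have h2 : 1 + |y| ≤ Real.exp |y| := by linarith [Real.add_one_le_exp |y|]
    calc (1 + |y|) ^ 2 ≤ (Real.exp |y|) ^ 2 := pow_le_pow_left₀ (by linarith) h2 2
      _ = _ := by rw [← Real.exp_nat_mul]; norm_num
  rw [Real.rpow_neg (by linarith), ← div_eq_mul_inv, le_div_iff₀ (by positivity)]
  have e : (1 + |y|) ^ (2 : ℝ) = (1 + |y|) ^ 2 := by
    rw [← Real.rpow_natCast]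
    norm_num
  rw [e]
  calc Real.exp (K * |y| - y ^ 2) * (1 + |y|) ^ 2 ≤ Real.exp (K * |y| - y ^ 2) * Real.exp (2 * |y|) :=
        mul_le_mul_of_nonneg_left h1 (Real.exp_pos _).le
    _ = Real.exp ((K + 2) * |y| - y ^ 2) := by rw [← Real.exp_add]; congr 1; ring
    _ ≤ _ := by
        refine Real.exp_le_exp.2 ?_
        rw [← sq_abs y]
        nlinarith [sq_nonneg (|y| - (K + 2) / 2), sq_nonneg (K + 2)]

/-- shifting the line for functions with Gaussian decay -/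
theorem shift_gauss {H : ℂ → ℂ} {a b C K : ℝ} (hab : a ≤ b) (hC : 0 ≤ C)
    (hd : ∀ s : ℂ, a ≤ s.re → s.re ≤ b → DifferentiableAt ℂ H s)
    (hB : ∀ s : ℂ, a ≤ s.re → s.re ≤ b → ‖H s‖ ≤ C * Real.exp (K * |s.im| - s.im ^ 2)) :
    ∫ v : ℝ, H (a + v * I) = ∫ v : ℝ, H (b + v * I) := by
  have h := shift (H := H) (a := a) (b := b) (p := 2) (B := C * Real.exp ((K + 2) ^ 2)) (by norm_num) hab hd
    (fun s h1 h2 => (hB s h1 h2).trans (by
      rw [mul_assoc]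
      exact mul_le_mul_of_nonneg_left (exp_poly K s.im) hC))
  unfold V at h
  have hpi : (((2 * Real.pi)⁻¹ : ℝ) : ℂ) ≠ 0 := by
    have := Real.pi_pos
    exact_mod_cast (by positivity : (2 * Real.pi)⁻¹ ≠ 0)
  exact mul_left_cancel₀ hpi h

theorem line_int_gauss {H : ℂ → ℂ} {a C K : ℝ} (hC : 0 ≤ C)
    (hd : ∀ s : ℂ, s.re = a → DifferentiableAt ℂ H s)
    (hB : ∀ s : ℂ, s.re = a → ‖H s‖ ≤ C * Real.exp (K * |s.im| - s.im ^ 2)) :
    Integrable (fun v : ℝ => H (a + v * I)) :=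
  Pool.Agent.TH942.SL.line_int (p := 2) (B := C * Real.exp ((K + 2) ^ 2)) (by norm_num)
    (fun s hs => (hd s hs).continuousAt)
    (fun s hs => (hB s hs).trans (by
      rw [mul_assoc]
      exact mul_le_mul_of_nonneg_left (exp_poly K s.im) hC))

variable {q : ℕ} [NeZero q]

/-- the entire function `(s - 1) L(s)` -/
noncomputable def Ef (Φ : ZMod q → ℂ) : ℂ → ℂ :=
  Function.update (fun s => (s - 1) * ZMod.LFunction Φ s) 1 (∑ j, Φ j / q)

theorem Ef_of_ne (Φ : ZMod q → ℂ) {s : ℂ} (hs : s ≠ 1) : Ef Φ s = (s - 1) * ZMod.LFunction Φ s := by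
  unfold Ef
  rw [Function.update_of_ne hs]

theorem Ef_diff (Φ : ZMod q → ℂ) : Differentiable ℂ (Ef Φ) := by
  rw [← differentiableOn_univ, ← Complex.differentiableOn_compl_singleton_and_continuousAt_iff (c := 1) univ_mem]
  constructor
  · intro s hs
    have hs1 : s ≠ 1 := by simpa using hs
    have h1 : DifferentiableAt ℂ (fun s => (s - 1) * ZMod.LFunction Φ s) s :=
      (differentiableAt_id.sub_const 1).mul (ZMod.differentiableAt_LFunction Φ s (Or.inl hs1))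
    have h2 : (fun s => (s - 1) * ZMod.LFunction Φ s) =ᶠ[𝓝 s] Ef Φ := by
      filter_upwards [isOpen_ne.mem_nhds hs1] with z hz
      rw [Ef_of_ne Φ hz]
    exact (h1.congr_of_eventuallyEq h2.symm).differentiableWithinAt
  · unfold Ef
    rw [continuousAt_update_same]
    exact ZMod.LFunction_residue_one Φ

/-- growth -/
theorem Ef_growth (Φ : ZMod q → ℂ) : ∃ C : ℝ, 0 ≤ C ∧ ∀ s : ℂ, -(1 / 2) ≤ s.re → s.re ≤ 3 →
    ‖Ef Φ s‖ ≤ C * Real.exp |s.im| := by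
  obtain ⟨C, A, hC⟩ := Pool.Agent.H405R2.SM.hurwitz_growth q
  have hcomp : IsCompact ((Icc (-(1 / 2)) 3) ×ℂ (Icc (-1 : ℝ) 1)) :=
    isCompact_Icc.reProdIm isCompact_Icc
  obtain ⟨B1, hB1⟩ := hcomp.exists_bound_of_continuousOn (Ef_diff Φ).continuous.continuousOn
  have hB10 : 0 ≤ B1 := by
    refine (norm_nonneg _).trans (hB1 0 ?_)
    rw [Complex.mem_reProdIm]
    simp
  have hq : (1 : ℝ) ≤ q := by exact_mod_cast NeZero.one_le
  set D : ℝ := 4 * (q * (∑ x : ZMod q, ‖Φ x‖ * |C|)) * ((A + 1).factorial : ℝ) with hD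
  have hD0 : 0 ≤ D := by positivity
  refine ⟨B1 + D, by positivity, fun s h1 h2 => ?_⟩
  have hexp1 : 1 ≤ Real.exp |s.im| := Real.one_le_exp (abs_nonneg _)
  rcases le_or_gt |s.im| 1 with h3 | h3
  · have h4 := hB1 s (by
      rw [Complex.mem_reProdIm]
      exact ⟨⟨h1, h2⟩, abs_le.1 h3⟩)
    nlinarith
  · have hs1 : s ≠ 1 := by
      intro h
      rw [h] at h3
      norm_num at h3
    rw [Ef_of_ne Φ hs1, norm_mul]
    have h5 : ‖s - 1‖ ≤ 4 * |s.im| := by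
      refine (Complex.norm_le_abs_re_add_abs_im _).trans ?_
      simp only [sub_re, one_re, sub_im, one_im, sub_zero]
      have : |s.re - 1| ≤ 2 := by rw [abs_le]; constructor <;> linarith
      linarith
    have h6 : ‖ZMod.LFunction Φ s‖ ≤ (q * (∑ x : ZMod q, ‖Φ x‖ * |C|)) * |s.im| ^ A := by
      unfold ZMod.LFunction
      rw [norm_mul, mul_assoc]
      have e1 : ‖(q : ℂ) ^ (-s)‖ ≤ q := by
        rw [Complex.norm_natCast_cpow_of_pos (NeZero.pos q)]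
        calc (q : ℝ) ^ (-s).re ≤ (q : ℝ) ^ (1 : ℝ) := by
              apply Real.rpow_le_rpow_of_exponent_le hq
              simp
              linarith
          _ = q := Real.rpow_one _
      have e2 : ‖∑ x : ZMod q, Φ x * HurwitzZeta.hurwitzZeta (ZMod.toAddCircle x) s‖ ≤
          (∑ x : ZMod q, ‖Φ x‖ * |C|) * |s.im| ^ A := by
        rw [Finset.sum_mul]
        refine (norm_sum_le _ _).trans (Finset.sum_le_sum fun x _ => ?_)
        rw [norm_mul, mul_assoc]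
        refine mul_le_mul_of_nonneg_left ?_ (norm_nonneg _)
        refine (hC x s h1 h2 h3.le).trans ?_
        exact mul_le_mul_of_nonneg_right (le_abs_self C) (by positivity)
      exact mul_le_mul e1 e2 (norm_nonneg _) (by positivity)
    have h7 : |s.im| ^ (A + 1) ≤ ((A + 1).factorial : ℝ) * Real.exp |s.im| := by
      have := Real.pow_div_factorial_le_exp |s.im| (abs_nonneg _) (A + 1)
      rw [div_le_iff₀ (by positivity)] at this
      linarith
    calc ‖s - 1‖ * ‖ZMod.LFunction Φ s‖ ≤ (4 * |s.im|) * ((q * (∑ x : ZMod q, ‖Φ x‖ * |C|)) * |s.im| ^ A) :=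
          mul_le_mul h5 h6 (norm_nonneg _) (by positivity)
      _ = 4 * (q * (∑ x : ZMod q, ‖Φ x‖ * |C|)) * |s.im| ^ (A + 1) := by ring
      _ ≤ 4 * (q * (∑ x : ZMod q, ‖Φ x‖ * |C|)) * (((A + 1).factorial : ℝ) * Real.exp |s.im|) :=
          mul_le_mul_of_nonneg_left h7 (by positivity)
      _ = D * Real.exp |s.im| := by rw [hD]; ring
      _ ≤ _ := by nlinarith

/-- the partial sum as an entire function -/
noncomputable def PP (Ψ : ZMod q → ℂ) (N : ℕ) (z : ℂ) : ℂ := ∑ n ∈ Finset.Ioc 0 N, Ψ (n : ZMod q) * (n : ℂ) ^ (-z)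

omit [NeZero q] in
theorem PP_diff (Ψ : ZMod q → ℂ) (N : ℕ) : Differentiable ℂ (PP Ψ N) := by
  unfold PP
  refine Differentiable.fun_sum fun n hn => ?_
  rw [Finset.mem_Ioc] at hn
  have hn0 : (n : ℂ) ≠ 0 := by
    have : n ≠ 0 := by omega
    exact_mod_cast this
  intro z
  exact ((differentiableAt_id.neg).const_cpow (Or.inl hn0)).const_mul _

omit [NeZero q] in
theorem PP_bound {Ψ : ZMod q → ℂ} {B : ℝ} (hB : ∀ j, ‖Ψ j‖ ≤ B) (N : ℕ) {z : ℂ} (hz : 0 ≤ z.re) :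
    ‖PP Ψ N z‖ ≤ N * B := by
  unfold PP
  refine (norm_sum_le _ _).trans ?_
  have : ∀ n ∈ Finset.Ioc 0 N, ‖Ψ (n : ZMod q) * (n : ℂ) ^ (-z)‖ ≤ B := by
    intro n hn
    rw [Finset.mem_Ioc] at hn
    rw [norm_mul, Complex.norm_natCast_cpow_of_pos (by omega)]
    have h1 : (n : ℝ) ^ (-z).re ≤ 1 := by
      apply Real.rpow_le_one_of_one_le_of_nonpos
      · exact_mod_cast (by omega : 1 ≤ n)
      · simpa using hz
    calc ‖Ψ (n : ZMod q)‖ * (n : ℝ) ^ (-z).re ≤ B * 1 :=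
          mul_le_mul (hB _) h1 (by positivity) ((norm_nonneg _).trans (hB 0))
      _ = B := mul_one _
  refine (Finset.sum_le_sum this).trans ?_
  simp

omit [NeZero q] in
theorem PP_line (Ψ : ZMod q → ℂ) (N : ℕ) (x u : ℝ) : PP Ψ N ((x : ℂ) + u * I) = DP (co Ψ x) 0 N u := by
  unfold PP DP co Pool.Agent.Q236.CR.nt
  refine Finset.sum_congr rfl fun n hn => ?_
  rw [Finset.mem_Ioc] at hn
  have hn0 : (n : ℂ) ≠ 0 := by
    have : n ≠ 0 := by omega
    exact_mod_cast this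
  rw [mul_assoc, ← Complex.cpow_add _ _ hn0]
  congr 2
  ring

/-- the kernel -/
noncomputable def KK (N : ℕ) (w : ℂ) : ℂ := (N : ℂ) ^ w * (cexp (w ^ 2) / w)

theorem norm_exp_sq' (w : ℂ) : ‖cexp (w ^ 2)‖ = Real.exp (w.re ^ 2 - w.im ^ 2) := by
  rw [Complex.norm_exp]
  congr 1
  simp [pow_two]

theorem KK_diff {N : ℕ} (hN : 1 ≤ N) {w : ℂ} (hw : w ≠ 0) : DifferentiableAt ℂ (KK N) w := by
  unfold KK
  have hn0 : (N : ℂ) ≠ 0 := by
    have : N ≠ 0 := by omega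
    exact_mod_cast this
  have h1 : DifferentiableAt ℂ (fun w : ℂ => (N : ℂ) ^ w) w := differentiableAt_id.const_cpow (Or.inl hn0)
  have h2 : DifferentiableAt ℂ (fun w : ℂ => cexp (w ^ 2)) w := by fun_prop
  exact h1.mul (h2.div differentiableAt_id hw)

theorem KK_norm {N : ℕ} (hN : 1 ≤ N) {w : ℂ} (hw : w.re ≠ 0) (hw2 : |w.re| ≤ 5 / 4) :
    ‖KK N w‖ ≤ (N : ℝ) ^ w.re / |w.re| * 5 * Real.exp (-w.im ^ 2) := by
  unfold KK
  rw [norm_mul, norm_div, norm_exp_sq', Complex.norm_natCast_cpow_of_pos (by omega)]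
  have h0 : 0 < |w.re| := abs_pos.mpr hw
  have h1 : |w.re| ≤ ‖w‖ := Complex.abs_re_le_norm w
  have h2 : Real.exp (w.re ^ 2 - w.im ^ 2) ≤ 5 * Real.exp (-w.im ^ 2) := by
    rw [sub_eq_add_neg, Real.exp_add]
    refine mul_le_mul_of_nonneg_right ?_ (Real.exp_pos _).le
    have h3 : w.re ^ 2 ≤ 25 / 16 := by
      rw [← sq_abs]; nlinarith
    have h4 : Real.exp (w.re ^ 2) ≤ Real.exp (25 / 16) := Real.exp_le_exp.mpr h3
    refine h4.trans ?_
    have h5 : Real.exp (25 / 16) = Real.exp 1 ^ 2 * Real.exp (-(7 / 16)) := by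
      rw [← Real.exp_nat_mul, ← Real.exp_add]; norm_num
    have h6 := Real.exp_one_lt_d9
    have h7 : Real.exp (-(7 / 16)) ≤ 0.66 := by
      have h8 : Real.exp (-(7 / 16)) = 1 / Real.exp (7 / 16) := by rw [Real.exp_neg, one_div]
      rw [h8, div_le_iff₀ (Real.exp_pos _)]
      have h9 := Real.quadratic_le_exp_of_nonneg (x := 7 / 16) (by norm_num)
      nlinarith
    rw [h5]
    have h8 : Real.exp 1 ^ 2 ≤ 2.7182818286 ^ 2 := pow_le_pow_left₀ (Real.exp_pos _).le h6.le 2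
    calc Real.exp 1 ^ 2 * Real.exp (-(7 / 16)) ≤ 2.7182818286 ^ 2 * 0.66 :=
          mul_le_mul h8 h7 (Real.exp_pos _).le (by norm_num)
      _ ≤ 5 := by norm_num
  calc (N : ℝ) ^ w.re * (Real.exp (w.re ^ 2 - w.im ^ 2) / ‖w‖) ≤
      (N : ℝ) ^ w.re * ((5 * Real.exp (-w.im ^ 2)) / |w.re|) := by
        refine mul_le_mul_of_nonneg_left ?_ (by positivity)
        exact div_le_div₀ (by positivity) h2 h0 h1
    _ = _ := by ring

/-- the factor `(s + w - 1) K(w)` on a line -/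
theorem fac_norm {N : ℕ} (hN : 1 ≤ N) {s : ℂ} (hs : 1 / 4 ≤ ‖s - 1‖) {c : ℝ} (hc : c ≠ 0) (hc2 : |c| ≤ 5 / 4) (v : ℝ) :
    ‖(s + (c + v * I) - 1) * KK N (c + v * I)‖ * (1 + |v|) ≤ ‖s - 1‖ * ((N : ℝ) ^ c / |c|) * 120 * gw v := by
  have hre : ((c : ℂ) + v * I).re = c := by simp
  have him : ((c : ℂ) + v * I).im = v := by simp
  have h1 := KK_norm hN (w := (c : ℂ) + v * I) (by rw [hre]; exact hc) (by rw [hre]; exact hc2)
  rw [hre, him] at h1
  have h2 : ‖s + (c + v * I) - 1‖ ≤ ‖s - 1‖ * (6 * (1 + |v|)) := by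
    have e : s + ((c : ℂ) + v * I) - 1 = (s - 1) + ((c : ℂ) + v * I) := by ring
    rw [e]
    have h3 : ‖(c : ℂ) + v * I‖ ≤ 5 / 4 + |v| := by
      refine (Complex.norm_le_abs_re_add_abs_im _).trans ?_
      rw [hre, him]; linarith
    refine (norm_add_le _ _).trans ?_
    have h4 : 0 ≤ |v| := abs_nonneg v
    nlinarith
  have hN0 : (0 : ℝ) ≤ (N : ℝ) ^ c / |c| := by positivity
  have hv : 0 ≤ 1 + |v| := by positivity
  rw [norm_mul]
  calc ‖s + (c + v * I) - 1‖ * ‖KK N (c + v * I)‖ * (1 + |v|)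
      ≤ (‖s - 1‖ * (6 * (1 + |v|))) * ((N : ℝ) ^ c / |c| * 5 * Real.exp (-v ^ 2)) * (1 + |v|) := by
        refine mul_le_mul_of_nonneg_right ?_ hv
        exact mul_le_mul h2 h1 (norm_nonneg _) (by positivity)
    _ = ‖s - 1‖ * ((N : ℝ) ^ c / |c|) * 30 * ((1 + |v|) ^ 2 * Real.exp (-v ^ 2)) := by ring
    _ ≤ ‖s - 1‖ * ((N : ℝ) ^ c / |c|) * 30 * (4 * gw v) :=
        mul_le_mul_of_nonneg_left (poly_gauss v) (by positivity)
    _ = _ := by ring

/-- crude bound in a strip, for shifting -/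
theorem fac_crude {N : ℕ} (hN : 1 ≤ N) (s : ℂ) {δ : ℝ} (hδ : 0 < δ) :
    ∃ C : ℝ, 0 ≤ C ∧ ∀ w : ℂ, δ ≤ |w.re| → |w.re| ≤ 5 / 4 →
      ‖(s + w - 1) * KK N w‖ ≤ C * Real.exp (|w.im| - w.im ^ 2) := by
  refine ⟨(‖s - 1‖ + 3) * ((N : ℝ) ^ (5 / 4 : ℝ) / δ * 5), by positivity, fun w h1 h2 => ?_⟩
  have hw : w.re ≠ 0 := by
    intro h
    rw [h, abs_zero] at h1
    linarith
  have h3 := KK_norm hN hw h2
  have hN1 : (1 : ℝ) ≤ N := by exact_mod_cast hN
  have h4 : (N : ℝ) ^ w.re / |w.re| ≤ (N : ℝ) ^ (5 / 4 : ℝ) / δ := by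
    refine div_le_div₀ (by positivity) ?_ hδ h1
    exact Real.rpow_le_rpow_of_exponent_le hN1 ((le_abs_self _).trans h2)
  have h5 : ‖s + w - 1‖ ≤ (‖s - 1‖ + 3) * Real.exp |w.im| := by
    have e : s + w - 1 = (s - 1) + w := by ring
    rw [e]
    have h6 : ‖w‖ ≤ 5 / 4 + |w.im| := by
      refine (Complex.norm_le_abs_re_add_abs_im _).trans ?_
      linarith
    have h7 : 1 + |w.im| ≤ Real.exp |w.im| := by linarith [Real.add_one_le_exp |w.im|]
    have h8 : 0 ≤ |w.im| := abs_nonneg _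
    refine (norm_add_le _ _).trans ?_
    have h9 : 0 ≤ ‖s - 1‖ := norm_nonneg _
    nlinarith
  rw [norm_mul]
  calc ‖s + w - 1‖ * ‖KK N w‖ ≤ ((‖s - 1‖ + 3) * Real.exp |w.im|) * ((N : ℝ) ^ (5 / 4 : ℝ) / δ * 5 * Real.exp (-w.im ^ 2)) := by
        refine mul_le_mul h5 (h3.trans ?_) (norm_nonneg _) (by positivity)
        refine mul_le_mul_of_nonneg_right ?_ (Real.exp_pos _).le
        exact mul_le_mul_of_nonneg_right h4 (by norm_num)
    _ = _ := by
        rw [sub_eq_add_neg |w.im|, Real.exp_add]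
        ring

end Pool.Agent.V5helper35.CR6.FM
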