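import Pool.Agent.V5helper35.CR6.FM.Conv

/-!
# Project CR6, job FMC, part 3: tails of the Dirichlet series
-/

set_option autoImplicit false

namespace Pool.Agent.V5helper35.CR6.FM

open Filter Topology Complex
open Pool.Agent.Q236.CR (nt)

variable {q : ℕ} [NeZero q]

/-- the coefficients on the line `Re s = x` -/
noncomputable def co (Ψ : ZMod q → ℂ) (x : ℝ) (n : ℕ) : ℂ := Ψ (n : ZMod q) * (n : ℂ) ^ (-(x : ℂ))

omit [NeZero q] in
theorem norm_co {Ψ : ZMod q → ℂ} {B : ℝ} (hB : ∀ j, ‖Ψ j‖ ≤ B) (x : ℝ) (n : ℕ) (hn : 1 ≤ n) :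
    ‖co Ψ x n‖ ≤ B * (n : ℝ) ^ (-x) := by
  unfold co
  rw [norm_mul, Complex.norm_natCast_cpow_of_pos (by omega)]
  simp only [neg_re, ofReal_re]
  exact mul_le_mul_of_nonneg_right (hB _) (by positivity)

omit [NeZero q] in
theorem term_eq (Ψ : ZMod q → ℂ) (x u : ℝ) (n : ℕ) (hn : 1 ≤ n) :
    LSeries.term (fun n : ℕ => Ψ (n : ZMod q)) ((x : ℂ) + u * I) n = co Ψ x n * nt u n := by
  have hn0 : (n : ℂ) ≠ 0 := by
    have : n ≠ 0 := by omega
    exact_mod_cast this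
  rw [LSeries.term_of_ne_zero (by omega)]
  unfold co nt
  rw [div_eq_mul_inv, mul_assoc, ← Complex.cpow_add _ _ hn0, ← Complex.cpow_neg]
  congr 2
  ring

theorem tele (n : ℕ) (hn : 1 ≤ n) :
    (((n + 1 : ℕ) : ℝ)) ^ (-(3 / 2) : ℝ) ≤ 2 * (1 / √(n : ℝ) - 1 / √((n + 1 : ℕ) : ℝ)) := by
  have hn0 : (0 : ℝ) < n := by exact_mod_cast hn
  have h1 : (0 : ℝ) < ((n + 1 : ℕ) : ℝ) := by positivity
  set a := √(n : ℝ) with ha
  set b := √((n + 1 : ℕ) : ℝ) with hb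
  have ha0 : 0 < a := Real.sqrt_pos.mpr hn0
  have hb0 : 0 < b := Real.sqrt_pos.mpr h1
  have ha2 : a ^ 2 = n := Real.sq_sqrt hn0.le
  have hb2 : b ^ 2 = ((n + 1 : ℕ) : ℝ) := Real.sq_sqrt h1.le
  have hb3 : (((n + 1 : ℕ) : ℝ)) ^ (-(3 / 2) : ℝ) = 1 / b ^ 3 := by
    rw [Real.rpow_neg h1.le, ← one_div]
    congr 1
    rw [hb, Real.sqrt_eq_rpow, ← Real.rpow_natCast, ← Real.rpow_mul h1.le]
    norm_num
  have hab : a ≤ b := Real.sqrt_le_sqrt (by push_cast; linarith)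
  have hd : (b - a) * (b + a) = 1 := by
    have : (b - a) * (b + a) = b ^ 2 - a ^ 2 := by ring
    rw [this, ha2, hb2]
    push_cast
    ring
  rw [hb3]
  have e1 : 1 / a - 1 / b = (b - a) / (a * b) := by
    field_simp
  rw [e1]
  have e2 : b - a = 1 / (b + a) := by
    field_simp
    exact hd
  rw [e2, div_div, ← mul_div_assoc, mul_one, div_le_div_iff₀ (by positivity) (by positivity)]
  have h3 : (b + a) * (a * b) ≤ (b + b) * (b * b) := by
    refine mul_le_mul (by linarith) (mul_le_mul_of_nonneg_right hab hb0.le) (by positivity) (by positivity)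
  nlinarith

theorem tail {Ψ : ZMod q → ℂ} {B : ℝ} (hB : ∀ j, ‖Ψ j‖ ≤ B) {x : ℝ} (hx : 3 / 2 ≤ x) (N : ℕ) (hN : 1 ≤ N) (u : ℝ) :
    ‖ZMod.LFunction Ψ ((x : ℂ) + u * I) - DP (co Ψ x) 0 N u‖ ≤ 2 * B / √N := by
  have hre : ((x : ℂ) + u * I).re = x := by simp
  have hB0 : 0 ≤ B := (norm_nonneg _).trans (hB 0)
  have hs : LSeriesSummable (fun n : ℕ => Ψ (n : ZMod q)) ((x : ℂ) + u * I) :=
    ZMod.LSeriesSummable_of_one_lt_re Ψ (by rw [hre]; linarith)
  rw [ZMod.LFunction_eq_LSeries Ψ (by rw [hre]; linarith), LSeries]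
  rw [← Summable.sum_add_tsum_nat_add (N + 1) hs]
  have h1 : ∑ i ∈ Finset.range (N + 1), LSeries.term (fun n : ℕ => Ψ (n : ZMod q)) ((x : ℂ) + u * I) i =
      DP (co Ψ x) 0 N u := by
    unfold DP
    rw [Finset.sum_range_succ']
    rw [LSeries.term_zero, add_zero]
    have h2 : Finset.Ioc 0 N = (Finset.range N).image (fun i => i + 1) := by
      ext m
      simp only [Finset.mem_Ioc, Finset.mem_image, Finset.mem_range]
      constructor
      · rintro ⟨h1, h2⟩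
        exact ⟨m - 1, by omega, by omega⟩
      · rintro ⟨i, hi, rfl⟩
        omega
    rw [h2, Finset.sum_image (by intro a _ b _ h; simpa using h)]
    refine Finset.sum_congr rfl fun i _ => ?_
    rw [term_eq Ψ x u (i + 1) (by omega)]
  rw [h1, add_sub_cancel_left]
  set g : ℕ → ℝ := fun i => 2 * B * (1 / √((i + N : ℕ) : ℝ) - 1 / √((i + N + 1 : ℕ) : ℝ)) with hg
  have hg0 : ∀ i, 0 ≤ g i := by
    intro i
    have h3 := tele (i + N) (by omega)
    have h4 : (0 : ℝ) ≤ (((i + N + 1 : ℕ) : ℝ)) ^ (-(3 / 2) : ℝ) := by positivity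
    simp only [hg]
    nlinarith
  have hsum : ∀ k, ∑ i ∈ Finset.range k, g i = 2 * B * (1 / √(N : ℝ) - 1 / √((k + N : ℕ) : ℝ)) := by
    intro k
    induction k with
    | zero => simp
    | succ k ih =>
      rw [Finset.sum_range_succ, ih]
      simp only [hg]
      have : k + 1 + N = k + N + 1 := by ring
      rw [this]
      ring
  have hhas : HasSum g (2 * B / √N) := by
    rw [hasSum_iff_tendsto_nat_of_nonneg hg0]
    simp_rw [hsum]
    have h5 : Tendsto (fun k : ℕ => 1 / √((k + N : ℕ) : ℝ)) atTop (𝓝 0) := by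
      have h6 : Tendsto (fun k : ℕ => √((k + N : ℕ) : ℝ)) atTop atTop := by
        refine Real.tendsto_sqrt_atTop.comp ?_
        exact tendsto_natCast_atTop_atTop.comp (tendsto_add_atTop_nat N)
      refine h6.inv_tendsto_atTop.congr (fun k => ?_)
      simp only [Pi.inv_apply, one_div]
    have h7 := ((tendsto_const_nhds (x := 1 / √(N : ℝ))).sub h5).const_mul (2 * B)
    rw [sub_zero] at h7
    convert h7 using 2
    ring
  refine tsum_of_norm_bounded hhas (fun i => ?_)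
  have hi : i + (N + 1) = i + N + 1 := by ring
  rw [hi, term_eq Ψ x u _ (by omega), norm_mul, norm_nt u _ (by omega), mul_one]
  refine (norm_co hB x _ (by omega)).trans ?_
  simp only [hg]
  have h8 := tele (i + N) (by omega)
  have h9 : (((i + N + 1 : ℕ) : ℝ)) ^ (-x) ≤ (((i + N + 1 : ℕ) : ℝ)) ^ (-(3 / 2) : ℝ) := by
    apply Real.rpow_le_rpow_of_exponent_le
    · exact_mod_cast (by omega : 1 ≤ i + N + 1)
    · linarith
  calc B * (((i + N + 1 : ℕ) : ℝ)) ^ (-x) ≤ B * (2 * (1 / √((i + N : ℕ) : ℝ) - 1 / √((i + N + 1 : ℕ) : ℝ))) :=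
        mul_le_mul_of_nonneg_left (h9.trans h8) hB0
    _ = _ := by ring

theorem dp_split (a : ℕ → ℂ) (N : ℕ) (u : ℝ) (J : ℕ) :
    DP a 0 (2 ^ J * N) u = DP a 0 N u + ∑ j ∈ Finset.range J, DP a (2 ^ j * N) (2 ^ (j + 1) * N) u := by
  induction J with
  | zero => simp
  | succ J ih =>
    rw [Finset.sum_range_succ, ← add_assoc, ← ih]
    unfold DP
    rw [Finset.sum_Ioc_consecutive _ (Nat.zero_le _)]
    exact Nat.mul_le_mul_right N (Nat.pow_le_pow_right (by norm_num) (by omega))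

theorem tail_M4 {Ψ : ZMod q → ℂ} {B : ℝ} (hB : ∀ j, ‖Ψ j‖ ≤ B) {x : ℝ} (hx : 3 / 2 ≤ x) {N J : ℕ} {T Λ : ℝ}
    (hN : 1 ≤ N) (hT : 0 < T) (hNT : (N : ℝ) ^ 2 ≤ 4 * T) (hJ : N ≤ 2 ^ J)
    (hΛ : 1 + Real.log (((2 ^ J * N : ℕ) : ℝ) ^ 2) ≤ Λ) :
    M4 T (130 * ((J : ℝ) + 1) ^ 4 * B ^ 4 * Λ ^ 5 * T / (N : ℝ) ^ 4)
      (fun u => ‖ZMod.LFunction Ψ ((x : ℂ) + u * I) - DP (co Ψ x) 0 N u‖) := by
  have hB0 : 0 ≤ B := (norm_nonneg _).trans (hB 0)
  have hN0 : (0 : ℝ) < N := by exact_mod_cast hN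
  have hN1 : (1 : ℝ) ≤ N := by exact_mod_cast hN
  have hlog0 : 0 ≤ Real.log (((2 ^ J * N : ℕ) : ℝ) ^ 2) := by
    have := Real.log_natCast_nonneg ((2 ^ J * N) ^ 2)
    push_cast at this ⊢
    exact this
  have hΛ1 : 1 ≤ Λ := by linarith
  have hcont : Continuous fun u : ℝ => ‖ZMod.LFunction Ψ ((x : ℂ) + u * I) - DP (co Ψ x) 0 N u‖ := by
    refine Continuous.norm (Continuous.sub ?_ (dp_cont _ _ _))
    rw [continuous_iff_continuousAt]
    intro u
    have h1 : ContinuousAt (ZMod.LFunction Ψ) ((x : ℂ) + u * I) := by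
      refine (ZMod.differentiableAt_LFunction Ψ _ (Or.inl ?_)).continuousAt
      intro h
      have := congrArg Complex.re h
      simp at this
      linarith
    exact ContinuousAt.comp (f := fun u : ℝ => (x : ℂ) + u * I) h1 (by fun_prop)
  -- the majorant
  set S : ℕ → ℝ := fun j => if j < J then B ^ 4 * Λ ^ 4 * (2 * T + 128 * Λ * T) / (N : ℝ) ^ 4
    else 32 * T * B ^ 4 / (N : ℝ) ^ 4 with hS
  set f : ℕ → ℝ → ℝ := fun j u => if j < J then ‖DP (co Ψ x) (2 ^ j * N) (2 ^ (j + 1) * N) u‖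
    else 2 * B / √((2 ^ J * N : ℕ) : ℝ) with hf
  have hfM : ∀ j ∈ Finset.range (J + 1), M4 T (S j) (f j) := by
    intro j hj
    rw [Finset.mem_range] at hj
    by_cases hjJ : j < J
    · simp only [hS, hf, hjJ, if_true]
      have hK0 : (0 : ℝ) < ((2 ^ j * N : ℕ) : ℝ) := by positivity
      have hKN : (N : ℝ) ≤ ((2 ^ j * N : ℕ) : ℝ) := by
        have : N ≤ 2 ^ j * N := Nat.le_mul_of_pos_left N (by positivity)
        exact_mod_cast this
      have hcoef : ∀ n ∈ Finset.Ioc (2 ^ j * N) (2 ^ (j + 1) * N), ‖co Ψ x n‖ ≤ (B / ((2 ^ j * N : ℕ) : ℝ)) / √n := by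
        intro n hn
        rw [Finset.mem_Ioc] at hn
        have hn1 : 1 ≤ n := by omega
        have hn0 : (0 : ℝ) < n := by exact_mod_cast hn1
        refine (norm_co hB x n hn1).trans ?_
        have h1 : (n : ℝ) ^ (-x) ≤ (n : ℝ) ^ (-(3 / 2) : ℝ) := by
          apply Real.rpow_le_rpow_of_exponent_le
          · exact_mod_cast hn1
          · linarith
        have h2 : (n : ℝ) ^ (-(3 / 2) : ℝ) = 1 / (n * √n) := by
          rw [Real.rpow_neg hn0.le, ← one_div]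
          congr 1
          rw [Real.sqrt_eq_rpow, show (3 / 2 : ℝ) = 1 + 1 / 2 by norm_num, Real.rpow_add hn0, Real.rpow_one]
        have h3 : ((2 ^ j * N : ℕ) : ℝ) ≤ n := by exact_mod_cast hn.1.le
        have h4 : 1 / ((n : ℝ) * √n) ≤ 1 / (((2 ^ j * N : ℕ) : ℝ) * √n) := by
          apply one_div_le_one_div_of_le (by positivity)
          exact mul_le_mul_of_nonneg_right h3 (Real.sqrt_nonneg _)
        calc B * (n : ℝ) ^ (-x) ≤ B * (1 / (((2 ^ j * N : ℕ) : ℝ) * √n)) :=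
              mul_le_mul_of_nonneg_left (h1.trans (h2.le.trans h4)) hB0
          _ = _ := by field_simp
      have h5 := M4.dp (T := T) hT.le hcoef
      refine h5.mono ?_
      have hV : (((2 ^ (j + 1) * N : ℕ) : ℝ)) = 2 * ((2 ^ j * N : ℕ) : ℝ) := by push_cast; ring
      have hlog : 1 + Real.log (((2 ^ (j + 1) * N : ℕ) : ℝ) ^ 2) ≤ Λ := by
        refine le_trans ?_ hΛ
        have h6 : 2 ^ (j + 1) * N ≤ 2 ^ J * N :=
          Nat.mul_le_mul_right N (Nat.pow_le_pow_right (by norm_num) (by omega))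
        have h7 : (((2 ^ (j + 1) * N : ℕ) : ℝ)) ^ 2 ≤ (((2 ^ J * N : ℕ) : ℝ)) ^ 2 :=
          pow_le_pow_left₀ (by positivity) (by exact_mod_cast h6) 2
        have h8 := Real.log_le_log (by positivity) h7
        linarith
      have hlogn : 0 ≤ 1 + Real.log (((2 ^ (j + 1) * N : ℕ) : ℝ) ^ 2) := by
        have := Real.log_natCast_nonneg ((2 ^ (j + 1) * N) ^ 2)
        push_cast at this ⊢
        linarith
      set K : ℝ := ((2 ^ j * N : ℕ) : ℝ) with hK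
      have hVK : (8 : ℝ) * ((2 ^ (j + 1) * N : ℕ) : ℝ) ^ 2 * (1 + Real.log (((2 ^ (j + 1) * N : ℕ) : ℝ) ^ 2)) ≤
          32 * K ^ 2 * Λ := by
        rw [hV] at hlog hlogn ⊢
        calc 8 * (2 * K) ^ 2 * (1 + Real.log ((2 * K) ^ 2)) ≤ 8 * (2 * K) ^ 2 * Λ :=
              mul_le_mul_of_nonneg_left hlog (by positivity)
          _ = _ := by ring
      have hΛ4 : (1 + Real.log (((2 ^ (j + 1) * N : ℕ) : ℝ) ^ 2)) ^ 4 ≤ Λ ^ 4 := pow_le_pow_left₀ hlogn hlog 4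
      have h9 : (B / K) ^ 4 * (2 * T + 8 * ((2 ^ (j + 1) * N : ℕ) : ℝ) ^ 2 *
          (1 + Real.log (((2 ^ (j + 1) * N : ℕ) : ℝ) ^ 2))) * (1 + Real.log (((2 ^ (j + 1) * N : ℕ) : ℝ) ^ 2)) ^ 4 ≤
          (B / K) ^ 4 * (2 * T + 32 * K ^ 2 * Λ) * Λ ^ 4 := by
        refine mul_le_mul ?_ hΛ4 (by positivity) (by positivity)
        exact mul_le_mul_of_nonneg_left (by linarith) (by positivity)
      refine h9.trans ?_
      have h10 : (B / K) ^ 4 * (2 * T + 32 * K ^ 2 * Λ) * Λ ^ 4 =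
          B ^ 4 * Λ ^ 4 * (2 * T * (1 / K ^ 4) + 32 * Λ * (1 / K ^ 2)) := by
        field_simp
      rw [h10]
      have h11 : 1 / K ^ 4 ≤ 1 / (N : ℝ) ^ 4 :=
        one_div_le_one_div_of_le (by positivity) (pow_le_pow_left₀ hN0.le hKN 4)
      have h12 : 1 / K ^ 2 ≤ 4 * T / (N : ℝ) ^ 4 := by
        have h13 : 1 / K ^ 2 ≤ 1 / (N : ℝ) ^ 2 :=
          one_div_le_one_div_of_le (by positivity) (pow_le_pow_left₀ hN0.le hKN 2)
        refine h13.trans ?_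
        rw [div_le_div_iff₀ (by positivity) (by positivity)]
        have : (N : ℝ) ^ 4 = (N : ℝ) ^ 2 * (N : ℝ) ^ 2 := by ring
        rw [one_mul, this]
        exact mul_le_mul_of_nonneg_right hNT (by positivity)
      calc B ^ 4 * Λ ^ 4 * (2 * T * (1 / K ^ 4) + 32 * Λ * (1 / K ^ 2))
          ≤ B ^ 4 * Λ ^ 4 * (2 * T * (1 / (N : ℝ) ^ 4) + 32 * Λ * (4 * T / (N : ℝ) ^ 4)) := by
            refine mul_le_mul_of_nonneg_left ?_ (by positivity)
            exact add_le_add (mul_le_mul_of_nonneg_left h11 (by positivity))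
              (mul_le_mul_of_nonneg_left h12 (by positivity))
        _ = _ := by ring
    · simp only [hS, hf, hjJ, if_false]
      have h5 := M4.const (T := T) (B := 2 * B / √((2 ^ J * N : ℕ) : ℝ)) (by positivity)
      refine h5.mono ?_
      have h6 : (√((2 ^ J * N : ℕ) : ℝ)) ^ 4 = (((2 ^ J * N : ℕ) : ℝ)) ^ 2 := by
        have : (√((2 ^ J * N : ℕ) : ℝ)) ^ 4 = ((√((2 ^ J * N : ℕ) : ℝ)) ^ 2) ^ 2 := by ring
        rw [this, Real.sq_sqrt (by positivity)]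
      rw [div_pow, h6]
      have h7 : (N : ℝ) ^ 4 ≤ (((2 ^ J * N : ℕ) : ℝ)) ^ 2 := by
        have h8 : (N : ℝ) ≤ (2 : ℝ) ^ J := by exact_mod_cast hJ
        have h9 : (((2 ^ J * N : ℕ) : ℝ)) = (2 : ℝ) ^ J * (N : ℝ) := by push_cast; ring
        rw [h9]
        have h10 : (N : ℝ) * N ≤ (2 : ℝ) ^ J * (N : ℝ) := mul_le_mul_of_nonneg_right h8 hN0.le
        have h11 := pow_le_pow_left₀ (by positivity) h10 2
        refine le_trans (le_of_eq ?_) h11
        ring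
      calc 2 * T * ((2 * B) ^ 4 / (((2 ^ J * N : ℕ) : ℝ)) ^ 2) ≤ 2 * T * ((2 * B) ^ 4 / (N : ℝ) ^ 4) := by
            refine mul_le_mul_of_nonneg_left ?_ (by positivity)
            exact div_le_div_of_nonneg_left (by positivity) (by positivity) h7
        _ = _ := by ring
  have hsum := M4.sum hT.le (Finset.range (J + 1)) S f hfM
  have hle : ∀ u : ℝ, ‖ZMod.LFunction Ψ ((x : ℂ) + u * I) - DP (co Ψ x) 0 N u‖ ≤ ∑ j ∈ Finset.range (J + 1), f j u := by
    intro u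
    rw [Finset.sum_range_succ]
    have h1 : ∑ j ∈ Finset.range J, f j u = ∑ j ∈ Finset.range J, ‖DP (co Ψ x) (2 ^ j * N) (2 ^ (j + 1) * N) u‖ := by
      refine Finset.sum_congr rfl fun j hj => ?_
      rw [Finset.mem_range] at hj
      simp only [hf, hj, if_true]
    have h2 : f J u = 2 * B / √((2 ^ J * N : ℕ) : ℝ) := by simp [hf]
    rw [h1, h2]
    have h3 := tail hB hx (2 ^ J * N) (Nat.mul_pos (by positivity) hN) u
    have h4 := dp_split (co Ψ x) N u J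
    have h5 : ZMod.LFunction Ψ ((x : ℂ) + u * I) - DP (co Ψ x) 0 N u =
        ∑ j ∈ Finset.range J, DP (co Ψ x) (2 ^ j * N) (2 ^ (j + 1) * N) u +
          (ZMod.LFunction Ψ ((x : ℂ) + u * I) - DP (co Ψ x) 0 (2 ^ J * N) u) := by
      rw [h4]; ring
    rw [h5]
    exact (norm_add_le _ _).trans (add_le_add (norm_sum_le _ _) h3)
  have hfin := M4.of_le hT.le hsum hcont (fun u => norm_nonneg _) hle
  refine hfin.mono ?_
  rw [Finset.card_range, Finset.sum_range_succ]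
  have h1 : ∑ j ∈ Finset.range J, S j = J * (B ^ 4 * Λ ^ 4 * (2 * T + 128 * Λ * T) / (N : ℝ) ^ 4) := by
    rw [Finset.sum_congr rfl (g := fun _ => B ^ 4 * Λ ^ 4 * (2 * T + 128 * Λ * T) / (N : ℝ) ^ 4) (fun j hj => by
      rw [Finset.mem_range] at hj
      simp only [hS, hj, if_true])]
    rw [Finset.sum_const, Finset.card_range, nsmul_eq_mul]
  have h2 : S J = 32 * T * B ^ 4 / (N : ℝ) ^ 4 := by simp [hS]
  rw [h1, h2]
  push_cast
  have h3 : (J : ℝ) * (B ^ 4 * Λ ^ 4 * (2 * T + 128 * Λ * T) / (N : ℝ) ^ 4) + 32 * T * B ^ 4 / (N : ℝ) ^ 4 ≤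
      130 * ((J : ℝ) + 1) * B ^ 4 * Λ ^ 5 * T / (N : ℝ) ^ 4 := by
    rw [← mul_div_assoc, ← add_div]
    refine div_le_div_of_nonneg_right ?_ (by positivity)
    have e1 : (J : ℝ) * (B ^ 4 * Λ ^ 4 * (2 * T + 128 * Λ * T)) ≤ (J : ℝ) * (B ^ 4 * Λ ^ 4 * (130 * Λ * T)) := by
      refine mul_le_mul_of_nonneg_left ?_ (Nat.cast_nonneg _)
      refine mul_le_mul_of_nonneg_left ?_ (by positivity)
      nlinarith
    have e2 : 32 * T * B ^ 4 ≤ 130 * B ^ 4 * Λ ^ 5 * T := by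
      have : (1 : ℝ) ≤ Λ ^ 5 := one_le_pow₀ hΛ1
      have h0 : 0 ≤ T * B ^ 4 := by positivity
      nlinarith
    calc _ ≤ (J : ℝ) * (B ^ 4 * Λ ^ 4 * (130 * Λ * T)) + 130 * B ^ 4 * Λ ^ 5 * T := add_le_add e1 e2
      _ = _ := by ring
  calc ((J : ℝ) + 1) ^ 3 * ((J : ℝ) * (B ^ 4 * Λ ^ 4 * (2 * T + 128 * Λ * T) / (N : ℝ) ^ 4) + 32 * T * B ^ 4 / (N : ℝ) ^ 4)
      ≤ ((J : ℝ) + 1) ^ 3 * (130 * ((J : ℝ) + 1) * B ^ 4 * Λ ^ 5 * T / (N : ℝ) ^ 4) :=
        mul_le_mul_of_nonneg_left h3 (by positivity)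
    _ = _ := by ring

end Pool.Agent.V5helper35.CR6.FM
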